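import Pool.Agent.Helper51.UD.Arith

/-!
# Simplices in dense sets of tuples of rough numbers `n + v_i`
-/

set_option autoImplicit false

open Finset

namespace Pool.Agent.Helper51.UD

open Pool.Agent.H602R3.DHJ (av av_const av_mono av_nonneg av_add av_sub av_mul av_sum av_equiv
  av_prod av_comm)
open Pool.Agent.Y727.PSP
open Pool.Agent.Y880.RS (cls mom2 log_ev)

variable {r N : ℕ}

/-- the shifts -/
def tv {κ : ℕ} (b : Fin r → ℕ) (v : Fin κ → ℕ) (Q : ℕ) (q : (Fin r → ZMod N) × Fin κ) : ℕ :=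
  Q * (rn b q.1 + 1) + v q.2

theorem tv_ne {κ : ℕ} (b : Fin r → ℕ) (v : Fin κ → ℕ) (Q : ℕ) (hQ : 1 ≤ Q)
    (hv : Function.Injective v) (hvQ : ∀ i, v i < Q) (q q' : (Fin r → ZMod N) × Fin κ)
    (h : rn b q.1 ≠ rn b q'.1 ∨ q.2 ≠ q'.2) : tv b v Q q ≠ tv b v Q q' := by
  intro he
  unfold tv at he
  have h1 : (Q * (rn b q.1 + 1) + v q.2) / Q = rn b q.1 + 1 := by
    rw [Nat.mul_add_div hQ, Nat.div_eq_of_lt (hvQ _), add_zero]
  have h2 : (Q * (rn b q'.1 + 1) + v q'.2) / Q = rn b q'.1 + 1 := by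
    rw [Nat.mul_add_div hQ, Nat.div_eq_of_lt (hvQ _), add_zero]
  rw [he, h2] at h1
  have h3 : rn b q.1 = rn b q'.1 := by omega
  rw [h3] at he
  have h4 : v q.2 = v q'.2 := by omega
  rcases h with h | h
  · exact h h3
  · exact h (hv h4)

/-- the product of the differences -/
theorem exEK [NeZero N] {κ : ℕ} (b : Fin r → ℕ) (v : Fin κ → ℕ) (Q R : ℕ)
    (hR : ∀ q : (Fin r → ZMod N) × Fin κ, tv b v Q q ≤ R) :
    ∃ E : ℕ, 1 ≤ E ∧ Real.log E ≤ ((N : ℝ) ^ r * κ) ^ 2 * Real.log R ∧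
      ∀ q q' : (Fin r → ZMod N) × Fin κ, tv b v Q q ≠ tv b v Q q' → ∀ p : ℕ,
        (p : ℤ) ∣ (tv b v Q q : ℤ) - tv b v Q q' → p ∣ E := by
  classical
  obtain ⟨S, hS⟩ : ∃ S : Finset (((Fin r → ZMod N) × Fin κ) × ((Fin r → ZMod N) × Fin κ)),
    S = univ.filter (fun q => tv b v Q q.1 ≠ tv b v Q q.2) := ⟨_, rfl⟩
  have hd0 : ∀ q ∈ S, ((tv b v Q q.1 : ℤ) - tv b v Q q.2).natAbs ≠ 0 := by
    intro q hq
    rw [hS, mem_filter] at hq
    have := hq.2
    omega
  refine ⟨∏ q ∈ S, ((tv b v Q q.1 : ℤ) - tv b v Q q.2).natAbs, ?_, ?_, ?_⟩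
  · exact Nat.one_le_iff_ne_zero.2 (prod_ne_zero_iff.2 hd0)
  · rw [Nat.cast_prod, Real.log_prod]
    · have hR0 : 0 ≤ Real.log R := Real.log_natCast_nonneg R
      have h1 : ∀ q ∈ S, Real.log ((((tv b v Q q.1 : ℤ) - tv b v Q q.2).natAbs : ℕ) : ℝ) ≤
          Real.log R := by
        intro q hq
        have e1 := hR q.1
        have e2 := hR q.2
        have e3 : ((tv b v Q q.1 : ℤ) - tv b v Q q.2).natAbs ≤ R := by omega
        have e4 : (0 : ℝ) < ((((tv b v Q q.1 : ℤ) - tv b v Q q.2).natAbs : ℕ) : ℝ) := by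
          have := hd0 q hq
          exact_mod_cast Nat.pos_of_ne_zero this
        exact Real.log_le_log e4 (by exact_mod_cast e3)
      refine (sum_le_sum h1).trans ?_
      rw [sum_const, nsmul_eq_mul]
      apply mul_le_mul_of_nonneg_right _ hR0
      have h2 : S.card ≤ (N ^ r * κ) ^ 2 := by
        refine (card_le_univ _).trans (le_of_eq ?_)
        rw [Fintype.card_prod, Fintype.card_prod, Fintype.card_fun, Fintype.card_fin,
          Fintype.card_fin, ZMod.card, pow_two]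
      exact_mod_cast h2
    · intro q hq
      have := hd0 q hq
      exact_mod_cast this
  · intro z z' hne p hp
    have h1 : (z, z') ∈ S := by
      rw [hS, mem_filter]
      exact ⟨mem_univ _, hne⟩
    refine dvd_trans ?_ (dvd_prod_of_mem (fun q : ((Fin r → ZMod N) × Fin κ) ×
      ((Fin r → ZMod N) × Fin κ) => ((tv b v Q q.1 : ℤ) - tv b v Q q.2).natAbs) h1)
    exact Int.natCast_dvd.1 hp

theorem exD {m : ℕ} (t : Fin m → ℕ) (R : ℕ) (hR : ∀ j, t j ≤ R)
    (hne : ∀ j j', j ≠ j' → t j ≠ t j') : ∃ Δ : ℕ, Δ ≠ 0 ∧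
      Real.log Δ ≤ (m : ℝ) ^ 2 * Real.log R ∧
      ∀ j j', j ≠ j' → ∀ p : ℕ, (p : ℤ) ∣ (t j : ℤ) - t j' → p ∣ Δ := by
  classical
  have hf0 : ∀ q ∈ (univ : Finset (Fin m)).offDiag, ((t q.1 : ℤ) - t q.2).natAbs ≠ 0 := by
    intro q hq
    rw [mem_offDiag] at hq
    have := hne q.1 q.2 hq.2.2
    omega
  have hR0 : 0 ≤ Real.log R := Real.log_natCast_nonneg _
  refine ⟨∏ q ∈ (univ : Finset (Fin m)).offDiag, ((t q.1 : ℤ) - t q.2).natAbs, ?_, ?_, ?_⟩
  · rw [prod_ne_zero_iff]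
    exact hf0
  · rw [Nat.cast_prod, Real.log_prod]
    · calc ∑ q ∈ (univ : Finset (Fin m)).offDiag,
          Real.log ((((t q.1 : ℤ) - t q.2).natAbs : ℕ) : ℝ)
          ≤ ∑ _q ∈ (univ : Finset (Fin m)).offDiag, Real.log R := by
            apply sum_le_sum
            intro q hq
            have e1 := hR q.1
            have e2 := hR q.2
            have e3 : ((t q.1 : ℤ) - t q.2).natAbs ≤ R := by omega
            have e4 : (0 : ℝ) < ((((t q.1 : ℤ) - t q.2).natAbs : ℕ) : ℝ) := by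
              have := hf0 q hq
              exact_mod_cast Nat.pos_of_ne_zero this
            exact Real.log_le_log e4 (by exact_mod_cast e3)
        _ = ((univ : Finset (Fin m)).offDiag.card : ℝ) * Real.log R := by
            rw [sum_const, nsmul_eq_mul]
        _ ≤ (m : ℝ) ^ 2 * Real.log R := by
            apply mul_le_mul_of_nonneg_right _ hR0
            have h1 : (univ : Finset (Fin m)).offDiag.card ≤ m ^ 2 := by
              rw [offDiag_card, card_univ, Fintype.card_fin, pow_two]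
              omega
            exact_mod_cast h1
    · intro q hq
      have := hf0 q hq
      exact_mod_cast this
  · intro j j' hjj p hp
    have h1 : (j, j') ∈ (univ : Finset (Fin m)).offDiag := by
      rw [mem_offDiag]
      exact ⟨mem_univ _, mem_univ _, hjj⟩
    refine dvd_trans (Int.natCast_dvd.1 hp) ?_
    exact dvd_prod_of_mem (fun q : Fin m × Fin m => ((t q.1 : ℤ) - t q.2).natAbs) h1

theorem arithK (r κ : ℕ) (hr : 1 ≤ r) : ∀ (A : ℕ) (δ : ℝ), 0 < δ → ∃ c : ℝ, 0 < c ∧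
    ∃ B : ℕ, ∃ s₀ : ℝ, ∀ A₂ : ℕ, ∃ Z₀ : ℕ, ∀ (Z Q N X R : ℕ) (s : ℝ), Z₀ ≤ Z → 1 ≤ Q → s₀ ≤ s →
    (∀ p : ℕ, p.Prime → (p : ℝ) ≤ s → p ∣ Q) → Real.log Z ^ B ≤ N →
    ((N : ℝ) ^ r * κ) ^ 2 * Real.log ((Q * R : ℕ) : ℝ) ≤ Real.log Z ^ A₂ →
    ((2 * MM r * κ : ℕ) : ℝ) ^ 2 * Real.log ((Q * R : ℕ) : ℝ) ≤ A * s → Z * Q ≤ X →
    2 * X ≤ Z ^ A → Q * R ≤ X →
    ∀ b : Fin r → ℕ, Function.Injective (Fin.cons 0 b : Fin (r + 1) → ℕ) →
    (∀ z : Fin r → ZMod N, rn b z + 2 ≤ R) → ∀ (v : Fin κ → ℕ), Function.Injective v →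
    (∀ i, v i < Q) → ∀ (a : ℕ) (P : Finset ℕ),
    (∀ n ∈ P, n ≤ X ∧ Q * R < n ∧ n % Q = a % Q ∧ ∀ i, ∀ q : ℕ, q.Prime → q ∣ n + v i → Z < q) →
    δ * ((X / Q : ℝ) * ((Q : ℝ) / (Q.totient * Real.log Z)) ^ κ) ≤ P.card →
    ∃ D : ℤ, D ≠ 0 ∧ |D| < N ∧ c * ((X / Q : ℝ) / (N : ℝ) ^ (r + 1)) ≤
      (P.filter (fun n : ℕ => ∀ l, ∃ p ∈ P, (p : ℤ) = (n : ℤ) + Q * D * b l)).card := by
  classical
  intro A δ hδ
  obtain ⟨M₁, hM₁⟩ : ∃ M₁, M₁ = 2 * MM r := ⟨_, rfl⟩
  obtain ⟨c₁, hc₁, hmom⟩ := mom2 (M₁ * κ)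
  obtain ⟨δ', hδ'⟩ : ∃ δ' : ℝ, δ' = (1 / 3) ^ r * δ * c₁ ^ κ / 2 := ⟨_, rfl⟩
  have hδ'0 : 0 < δ' := by rw [hδ']; positivity
  obtain ⟨η, c₂, hη, hc₂, heng⟩ := engine r hr δ' hδ'0
  obtain ⟨B, s₀, hm0⟩ := hmom A (min (η / 4) (1 / 4)) (lt_min (by positivity) (by norm_num))
  obtain ⟨η', hη'⟩ : ∃ η', η' = min (η / 4) (1 / 4 : ℝ) := ⟨_, rfl⟩
  rw [← hη'] at hm0
  have hη'1 : η' ≤ η / 4 := hη' ▸ min_le_left _ _
  have hη'2 : η' ≤ 1 / 4 := hη' ▸ min_le_right _ _
  refine ⟨δ' / 8, by positivity, B * κ * M₁ + 1, max s₀ 0, fun A₂ => ?_⟩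
  obtain ⟨Z₁, hm⟩ := hm0 A₂
  obtain ⟨Z₂, hZ₂⟩ := log_ev (max (max 1 (1 / c₂)) 3)
  refine ⟨max (max Z₁ Z₂) 2, ?_⟩
  intro Z Q N X R s hZ hQ hs hQs hNB hNA hRs hZQ hXA hQR b hb hR v hv hvQ a P hP hPc
  have hZ1 : Z₁ ≤ Z := ((le_max_left _ _).trans (le_max_left _ _)).trans hZ
  have hlogs := hZ₂ Z (((le_max_right _ _).trans (le_max_left _ _)).trans hZ)
  have hlog1 : 1 ≤ Real.log Z := ((le_max_left _ _).trans (le_max_left _ _)).trans hlogs
  have hlog2 : 1 / c₂ ≤ Real.log Z := ((le_max_right _ _).trans (le_max_left _ _)).trans hlogs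
  have hlog3 : (3 : ℝ) ≤ Real.log Z := (le_max_right _ _).trans hlogs
  have hZ2 : 2 ≤ Z := (le_max_right _ _).trans hZ
  have hs0 : s₀ ≤ s := (le_max_left _ _).trans hs
  have hsnn : 0 ≤ s := (le_max_right _ _).trans hs
  have hN3 : (3 : ℝ) ≤ N := by
    refine hlog3.trans (le_trans ?_ hNB)
    exact le_self_pow₀ hlog1 (by omega)
  have hN3' : 3 ≤ N := by exact_mod_cast hN3
  have hNne : NeZero N := ⟨by omega⟩
  have hN0 : (0 : ℝ) < N := by linarith
  have hQ0 : (0 : ℝ) < Q := by exact_mod_cast hQ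
  have hφ0 : (0 : ℝ) < Q.totient := by exact_mod_cast Nat.totient_pos.2 hQ
  have hZ0 : (0 : ℝ) < Z := by
    have : 0 < Z := by omega
    exact_mod_cast this
  have hQX : Q ≤ X := (Nat.le_mul_of_pos_left Q (by omega)).trans hZQ
  have hQZ' : Q ≤ Z ^ A := by omega
  -- the shifts
  have htR : ∀ q : (Fin r → ZMod N) × Fin κ, tv b v Q q ≤ Q * R := by
    intro q
    have h1 := hvQ q.2
    calc tv b v Q q ≤ Q * (rn b q.1 + 1) + Q := by unfold tv; omega
      _ = Q * (rn b q.1 + 2) := by ring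
      _ ≤ Q * R := Nat.mul_le_mul_left _ (hR q.1)
  obtain ⟨E, hE1, hEl, hEp⟩ := exEK (N := N) b v Q (Q * R) htR
  obtain ⟨ν, hν0, hνB, hνp, hν⟩ := hm Z Q E hZ1 hQ hQZ' hE1 (hEl.trans hNA)
    (fun p hp hps => hQs p hp (hps.trans hs0))
  have hYQ : (Z : ℝ) ≤ (X : ℝ) / Q := by
    rw [le_div_iff₀ hQ0]; exact_mod_cast hZQ
  have hYQ0 : (0 : ℝ) < (X : ℝ) / Q := hZ0.trans_le hYQ
  obtain ⟨U, hU⟩ : ∃ U, U = (X : ℝ) / Q := ⟨_, rfl⟩
  obtain ⟨S, hS⟩ : ∃ S, S = cls 0 X Q a := ⟨_, rfl⟩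
  rw [← hU] at hYQ0 hPc ⊢
  -- the number of worlds
  have hScard : |(S.card : ℝ) / U - 1| ≤ η' := by
    have e1 := hν 0 (Nat.zero_le _) (fun i => i.elim0) 0 X a 1 s hZQ hs0 hQs (fun i => i.elim0)
      one_ne_zero (by simp; positivity) (fun i => i.elim0)
    rw [← hU] at e1
    have e2 : (∑ n ∈ (Ioc 0 (0 + X)).filter (fun n => n % Q = a % Q),
        ∏ i : Fin 0, ν (n + (fun i : Fin 0 => (i.elim0 : ℕ)) i)) = S.card := by
      rw [hS, cls]
      simp
    rw [e2] at e1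
    exact e1
  have hS1 := abs_le.1 hScard
  have hSup : (S.card : ℝ) ≤ 2 * U := by
    have e1 : (S.card : ℝ) / U ≤ 2 := by linarith [hS1.2]
    rwa [div_le_iff₀ hYQ0] at e1
  have hSlo : U / 2 ≤ S.card := by
    have e1 : (1 : ℝ) / 2 ≤ S.card / U := by linarith [hS1.1]
    rw [le_div_iff₀ hYQ0] at e1
    linarith
  have hS0 : (0 : ℝ) < S.card := lt_of_lt_of_le (by positivity) hSlo
  have hSne : S.Nonempty := by
    rw [← card_pos]; exact_mod_cast hS0
  let t : (Fin r → ZMod N) → ℕ := fun z => Q * (rn b z + 1)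
  have httv : ∀ z i, t z + v i = tv b v Q (z, i) := fun z i => rfl
  have htR' : ∀ z, t z ≤ Q * R := by
    intro z
    exact Nat.mul_le_mul_left _ (by have := hR z; omega)
  -- the weights
  let F : ℕ → (Fin r → ZMod N) → ℝ := fun n z => ∏ i : Fin κ, ν (n + (t z + v i))
  have hFnn : ∀ n z, 0 ≤ F n z := fun n z => prod_nonneg fun i _ => hν0 _
  obtain ⟨h, hh⟩ : ∃ h, h = N / 2 := ⟨_, rfl⟩
  let f : ℕ → (Fin r → ZMod N) → ℝ := fun n z =>
    if (∀ l, (z l).val < h) ∧ n + t z ∈ P then F n z else 0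
  obtain ⟨L, hL⟩ : ∃ L, L = Real.log Z ^ (B * κ * M₁) := ⟨_, rfl⟩
  have hL1 : 1 ≤ L := by rw [hL]; exact one_le_pow₀ hlog1
  have hνle : ∀ x ∈ S, ∀ z, ∀ i, ν (x + (t z + v i)) ≤ Real.log Z ^ B := by
    intro x hx z i
    apply hνB
    rw [hS, cls, mem_filter, mem_Ioc] at hx
    have := htR (z, i)
    rw [← httv] at this
    omega
  have hmaj : MajB (fun l => (b l : ℤ)) S F (2 * MM r) η L := by
    rw [← hM₁]
    refine ⟨hFnn, ?_, ?_⟩
    · intro I _ hI g hg
      have e := Fintype.equivFin (I × Fin κ)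
      obtain ⟨m, hm'⟩ : ∃ m, m = Fintype.card (I × Fin κ) := ⟨_, rfl⟩
      rw [← hm'] at e
      have hmM : m ≤ M₁ * κ := by
        rw [hm', Fintype.card_prod, Fintype.card_fin]
        exact Nat.mul_le_mul_right _ hI
      obtain ⟨w, hw⟩ : ∃ w : Fin m → (Fin r → ZMod N) × Fin κ,
        ∀ j, w j = (g (e.symm j).1, (e.symm j).2) := ⟨_, fun _ => rfl⟩
      have hne : ∀ j j' : Fin m, j ≠ j' → tv b v Q (w j) ≠ tv b v Q (w j') := by
        intro j j' hjj
        apply tv_ne b v Q hQ hv hvQ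
        rw [hw, hw]
        by_contra hcon
        push Not at hcon
        apply hjj
        apply e.symm.injective
        refine Prod.ext (hg ?_) hcon.2
        simp only [rho_rn]
        rw [hcon.1]
      obtain ⟨tt, htt⟩ : ∃ tt : Fin m → ℕ, ∀ j, tt j = tv b v Q (w j) := ⟨_, fun _ => rfl⟩
      have htt1 : ∀ j, 1 ≤ tt j := by
        intro j
        rw [htt]
        unfold tv
        have : 0 < Q * (rn b (w j).1 + 1) := Nat.mul_pos hQ (Nat.succ_pos _)
        omega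
      have httR : ∀ j, tt j ≤ Q * R := fun j => by rw [htt]; exact htR _
      have httne : ∀ j j', j ≠ j' → tt j ≠ tt j' := by
        intro j j' hjj
        rw [htt, htt]
        exact hne j j' hjj
      obtain ⟨Δ, hΔ0, hΔl, hΔd⟩ := exD tt (Q * R) httR httne
      have hR0 : 0 ≤ Real.log ((Q * R : ℕ) : ℝ) := Real.log_natCast_nonneg _
      have hlogΔ : Real.log Δ ≤ A * s := by
        refine hΔl.trans (le_trans ?_ hRs)
        apply mul_le_mul_of_nonneg_right _ hR0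
        apply pow_le_pow_left₀ (Nat.cast_nonneg m)
        rw [← hM₁]
        exact_mod_cast hmM
      have hcond : ∀ j j' : Fin m, j ≠ j' → ∀ p : ℕ, p.Prime → ¬ p ∣ Q →
          (p : ℤ) ∣ (tt j : ℤ) - tt j' →
          p ∣ Δ ∧ ((p : ℝ) ≤ Real.exp (Real.sqrt (Real.log Z)) ∨ p ∣ E) := by
        intro j j' hjj p hp hpQ hpd
        refine ⟨hΔd j j' hjj p hpd, Or.inr ?_⟩
        rw [htt, htt] at hpd
        exact hEp (w j) (w j') (hne j j' hjj) p hpd
      have h1 := hν m hmM tt 0 X a Δ s hZQ hs0 hQs htt1 hΔ0 hlogΔ hcond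
      rw [← hU] at h1
      have h2 : ∑ n ∈ (Ioc 0 (0 + X)).filter (fun n => n % Q = a % Q),
          ∏ j, ν (n + tt j) = ∑ x ∈ S, ∏ i, F x (g i) := by
        have h3 : (Ioc 0 (0 + X)).filter (fun n => n % Q = a % Q) = S := by rw [hS, cls]
        rw [h3]
        apply sum_congr rfl
        intro x _
        have h4 : ∏ j, ν (x + tt j) = ∏ q : I × Fin κ, ν (x + tv b v Q (g q.1, q.2)) := by
          simp only [htt, hw]
          exact Equiv.prod_comp e.symm (fun q : I × Fin κ => ν (x + tv b v Q (g q.1, q.2)))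
        have h5 : ∏ q : I × Fin κ, ν (x + tv b v Q (g q.1, q.2)) =
            ∏ i, ∏ l, ν (x + tv b v Q (g i, l)) := Fintype.prod_prod_type _
        rw [h4, h5]
        refine prod_congr rfl fun i _ => ?_
        show _ = ∏ l : Fin κ, ν (x + (t (g i) + v l))
        refine prod_congr rfl fun l _ => ?_
        rw [httv]
      rw [h2] at h1
      obtain ⟨a1, a2⟩ := abs_le.1 h1
      obtain ⟨EE, hEE⟩ : ∃ EE, EE = ∑ x ∈ S, ∏ i, F x (g i) := ⟨_, rfl⟩
      rw [← hEE] at a1 a2 ⊢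
      have a3 : EE ≤ (1 + η') * U := by
        have : EE / U ≤ 1 + η' := by linarith
        rwa [div_le_iff₀ hYQ0] at this
      have a4 : (1 - η') * U ≤ EE := by
        have : 1 - η' ≤ EE / U := by linarith
        rwa [le_div_iff₀ hYQ0] at this
      have a5 : (S.card : ℝ) ≤ (1 + η') * U := by
        have : (S.card : ℝ) / U ≤ 1 + η' := by linarith [hS1.2]
        rwa [div_le_iff₀ hYQ0] at this
      have a6 : (1 - η') * U ≤ S.card := by
        have : 1 - η' ≤ (S.card : ℝ) / U := by linarith [hS1.1]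
        rwa [le_div_iff₀ hYQ0] at this
      have a7 : 2 * η' * U ≤ η * S.card := by
        have : 2 * η' * U ≤ η / 2 * U := by
          apply mul_le_mul_of_nonneg_right _ hYQ0.le
          linarith
        have h8 : η * (U / 2) ≤ η * S.card := by gcongr
        linarith
      rw [div_sub_one hS0.ne', abs_div, abs_of_pos hS0, div_le_iff₀ hS0, abs_le]
      constructor <;> linarith
    · intro I _ hI g x hx
      calc ∏ i, F x (g i) ≤ ∏ _i : I, (Real.log Z ^ B) ^ κ := by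
            apply prod_le_prod (fun i _ => hFnn _ _)
            intro i _
            calc ∏ l : Fin κ, ν (x + (t (g i) + v l)) ≤ ∏ _l : Fin κ, Real.log Z ^ B :=
                  prod_le_prod (fun l _ => hν0 _) (fun l _ => hνle x hx _ l)
              _ = _ := by rw [prod_const, card_univ, Fintype.card_fin]
        _ = Real.log Z ^ (B * κ * Fintype.card I) := by
            rw [prod_const, card_univ, ← pow_mul, ← pow_mul, mul_assoc]
        _ ≤ L := by
            rw [hL]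
            apply pow_le_pow_right₀ hlog1
            exact Nat.mul_le_mul_left _ hI
  have hLk : L ≤ c₂ * N := by
    calc L = Real.log Z ^ (B * κ * M₁) := hL
      _ ≤ Real.log Z ^ (B * κ * M₁) * (c₂ * Real.log Z) := by
          have : 1 ≤ c₂ * Real.log Z := by
            rw [div_le_iff₀ hc₂] at hlog2
            linarith
          exact le_mul_of_one_le_right (by positivity) this
      _ = c₂ * Real.log Z ^ (B * κ * M₁ + 1) := by rw [pow_succ]; ring
      _ ≤ c₂ * N := by gcongr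
  have hff : ∀ x z, 0 ≤ f x z ∧ f x z ≤ F x z := by
    intro x z
    simp only [f]
    split_ifs
    · exact ⟨hFnn x z, le_rfl⟩
    · exact ⟨le_rfl, hFnn x z⟩
  have hfP : ∀ x z, f x z ≠ 0 → (∀ l, (z l).val < h) ∧ x + t z ∈ P := by
    intro x z hz
    simp only [f] at hz
    by_contra hcon
    exact hz (if_neg hcon)
  have hsum : δ' * S.card ≤ ∑ x ∈ S, av (f x) := by
    have e1 : ∀ z : Fin r → ZMod N, (∀ l, (z l).val < h) →
        P.card * (c₁ * ((Q.totient : ℝ) / Q) * Real.log Z) ^ κ ≤ ∑ x ∈ S, f x z := by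
      intro z hz
      have e2 : ∑ p ∈ P, ∏ i : Fin κ, ν (p + v i) ≤ ∑ x ∈ S, f x z := by
        have e3 : ∑ p ∈ P, ∏ i : Fin κ, ν (p + v i) =
            ∑ x ∈ P.image (fun p => p - t z), f x z := by
          rw [sum_image]
          · apply sum_congr rfl
            intro p hp
            have h3 := hP p hp
            have h4 := htR' z
            have h5 : p - t z + t z = p := Nat.sub_add_cancel (by omega)
            simp only [f, F]
            rw [h5, if_pos ⟨hz, hp⟩]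
            refine prod_congr rfl fun i _ => ?_
            rw [← add_assoc, h5]
          · intro p hp p' hp' hpp
            have h3 := (hP p hp).2.1
            have h3' := (hP p' hp').2.1
            have h4 := htR' z
            simp only at hpp
            omega
        rw [e3]
        apply sum_le_sum_of_subset_of_nonneg
        · intro x hx
          rw [mem_image] at hx
          obtain ⟨p, hp, rfl⟩ := hx
          have h3 := hP p hp
          have h4 := htR' z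
          rw [hS, cls, mem_filter, mem_Ioc]
          refine ⟨⟨by omega, by omega⟩, ?_⟩
          rw [← h3.2.2.1]
          have h5 : p = (p - t z) + Q * (rn b z + 1) := by
            have : t z = Q * (rn b z + 1) := rfl
            omega
          conv_rhs => rw [h5]
          rw [Nat.add_mul_mod_self_left]
        · intro x _ _
          exact (hff x z).1
      refine le_trans ?_ e2
      rw [← nsmul_eq_mul, ← sum_const]
      apply sum_le_sum
      intro p hp
      have h3 := hP p hp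
      calc (c₁ * ((Q.totient : ℝ) / Q) * Real.log Z) ^ κ =
          ∏ _i : Fin κ, (c₁ * ((Q.totient : ℝ) / Q) * Real.log Z) := by
            rw [prod_const, card_univ, Fintype.card_fin]
        _ ≤ _ := by
            apply prod_le_prod
            · intro i _
              positivity
            · intro i _
              exact hνp (p + v i) (by omega) (h3.2.2.2 i)
    have e3 : ∑ x ∈ S, av (f x) = (∑ z, ∑ x ∈ S, f x z) / (N : ℝ) ^ r := by
      unfold av
      rw [← sum_div, sum_comm, Fintype.card_fun, Fintype.card_fin, ZMod.card]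
      push_cast
      rfl
    rw [e3, le_div_iff₀ (by positivity)]
    have e4 : (h : ℝ) ^ r * (P.card * (c₁ * ((Q.totient : ℝ) / Q) * Real.log Z) ^ κ) ≤
        ∑ z, ∑ x ∈ S, f x z := by
      calc (h : ℝ) ^ r * (P.card * (c₁ * ((Q.totient : ℝ) / Q) * Real.log Z) ^ κ)
          = ∑ _z ∈ (univ : Finset (Fin r → ZMod N)).filter (fun z => ∀ l, (z l).val < h),
            (P.card * (c₁ * ((Q.totient : ℝ) / Q) * Real.log Z) ^ κ) := by
            rw [sum_const, nsmul_eq_mul, box_card h (by omega)]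
            push_cast
            rfl
        _ ≤ ∑ z ∈ (univ : Finset (Fin r → ZMod N)).filter (fun z => ∀ l, (z l).val < h),
            ∑ x ∈ S, f x z := sum_le_sum fun z hz => e1 z (mem_filter.1 hz).2
        _ ≤ _ := sum_le_sum_of_subset_of_nonneg (filter_subset _ _)
            (fun z _ _ => sum_nonneg fun x _ => (hff x z).1)
    refine le_trans ?_ e4
    have e5 : (N : ℝ) / 3 ≤ h := by
      have h6 : N ≤ 3 * h := by omega
      have h7 : (N : ℝ) ≤ 3 * h := by exact_mod_cast h6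
      linarith
    have e6 : ((N : ℝ) / 3) ^ r ≤ (h : ℝ) ^ r := pow_le_pow_left₀ (by positivity) e5 r
    have e7 : δ * U * c₁ ^ κ ≤
        P.card * (c₁ * ((Q.totient : ℝ) / Q) * Real.log Z) ^ κ := by
      have e8 : δ * U * c₁ ^ κ = δ * (U * ((Q : ℝ) / (Q.totient * Real.log Z)) ^ κ) *
          (c₁ * ((Q.totient : ℝ) / Q) * Real.log Z) ^ κ := by
        have e9 : ((Q : ℝ) / (Q.totient * Real.log Z)) ^ κ *
            (c₁ * ((Q.totient : ℝ) / Q) * Real.log Z) ^ κ = c₁ ^ κ := by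
          rw [← mul_pow]
          congr 1
          field_simp
        rw [← e9]
        ring
      rw [e8]
      exact mul_le_mul_of_nonneg_right hPc (by positivity)
    calc δ' * S.card * (N : ℝ) ^ r ≤ δ' * (2 * U) * (N : ℝ) ^ r := by gcongr
      _ = ((N : ℝ) / 3) ^ r * (δ * U * c₁ ^ κ) := by
          rw [hδ', div_pow, div_pow, one_pow]
          ring
      _ ≤ _ := mul_le_mul e6 e7 (by positivity) (by positivity)
  obtain ⟨G, hGS, hGc, hG⟩ := heng (fun l => (b l : ℤ)) (inj_cons b hb) N S F f L h hSne hL1 hmaj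
    hLk hff (by omega) (fun x z hz => (hfP x z hz).1) hsum
  -- the most popular simplex
  choose! zz DD hzz using hG
  obtain ⟨V, hV⟩ : ∃ V : Finset ((Fin r → ZMod N) × ℤ),
    V = (univ : Finset (Fin r → ZMod N)) ×ˢ Ioo (-(N : ℤ)) N := ⟨_, rfl⟩
  have hVc : (V.card : ℝ) ≤ 2 * (N : ℝ) ^ (r + 1) := by
    have h1 : V.card ≤ N ^ r * (2 * N) := by
      rw [hV, card_product, card_univ, Fintype.card_fun, Fintype.card_fin, ZMod.card, Int.card_Ioo]
      apply Nat.mul_le_mul_left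
      omega
    have h2 : (V.card : ℝ) ≤ ((N ^ r * (2 * N) : ℕ) : ℝ) := by exact_mod_cast h1
    refine h2.trans (le_of_eq ?_)
    push_cast
    ring
  have hmaps : ∀ x ∈ G, (zz x, DD x) ∈ V := by
    intro x hx
    rw [hV, mem_product, mem_Ioo]
    have := abs_lt.1 (hzz x hx).2.2.1
    exact ⟨mem_univ _, this⟩
  have hVne : V.Nonempty := by
    have : G.Nonempty := by
      rw [← card_pos]
      have : (0 : ℝ) < G.card := lt_of_lt_of_le (by positivity) hGc
      exact_mod_cast this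
    obtain ⟨x, hx⟩ := this
    exact ⟨_, hmaps x hx⟩
  obtain ⟨w, hwV, hw⟩ : ∃ w ∈ V, (G.card : ℝ) / V.card ≤
      (G.filter (fun x => (zz x, DD x) = w)).card := by
    by_contra hcon
    push Not at hcon
    have h1 : (G.card : ℝ) < ∑ w ∈ V, (G.card : ℝ) / V.card := by
      have h2 : G.card = ∑ w ∈ V, (G.filter (fun x => (zz x, DD x) = w)).card :=
        card_eq_sum_card_fiberwise hmaps
      have h3 : (G.card : ℝ) = ∑ w ∈ V, ((G.filter (fun x => (zz x, DD x) = w)).card : ℝ) := by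
        exact_mod_cast h2
      rw [h3]
      conv_rhs => rw [← h3]
      exact sum_lt_sum_of_nonempty hVne hcon
    rw [sum_const, nsmul_eq_mul, mul_div_cancel₀] at h1
    · exact lt_irrefl _ h1
    · have : 0 < V.card := hVne.card_pos
      positivity
  obtain ⟨G', hG'⟩ : ∃ G', G' = G.filter (fun x => (zz x, DD x) = w) := ⟨_, rfl⟩
  rw [← hG'] at hw
  have hG'2 : ∀ x ∈ G', x + t w.1 ∈ P ∧ w.2 ≠ 0 ∧ |w.2| < N ∧ ∀ l, ∃ p ∈ P,
      (p : ℤ) = ((x + t w.1 : ℕ) : ℤ) + Q * w.2 * b l := by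
    intro x hx
    rw [hG', mem_filter] at hx
    obtain ⟨hx1, hx2⟩ := hx
    obtain ⟨h1, h2, h3, h4⟩ := hzz x hx1
    have e1 : zz x = w.1 := congrArg Prod.fst hx2
    have e2 : DD x = w.2 := congrArg Prod.snd hx2
    rw [e1] at h1 h4
    rw [e2] at h2 h3 h4
    refine ⟨(hfP x _ h1).2, h2, h3, fun l => ?_⟩
    obtain ⟨z', h5, h6⟩ := h4 l
    refine ⟨x + t z', (hfP x _ h5).2, ?_⟩
    rw [rho_rn, rho_rn] at h6
    simp only [t]
    push_cast
    rw [h6]
    ring
  have hG'pos : 0 < (G'.card : ℝ) := by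
    refine lt_of_lt_of_le ?_ hw
    have h1 : (0 : ℝ) < G.card := lt_of_lt_of_le (by positivity) hGc
    have h2 : (0 : ℝ) < V.card := by exact_mod_cast hVne.card_pos
    positivity
  obtain ⟨x₀, hx₀⟩ : G'.Nonempty := by
    rw [← card_pos]
    exact_mod_cast hG'pos
  refine ⟨w.2, (hG'2 x₀ hx₀).2.1, (hG'2 x₀ hx₀).2.2.1, ?_⟩
  have h1 : G'.card ≤
      (P.filter (fun n : ℕ => ∀ l, ∃ p ∈ P, (p : ℤ) = (n : ℤ) + Q * w.2 * b l)).card := by
    refine card_le_card_of_injOn (fun x => x + t w.1) ?_ ?_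
    · intro x hx
      have h2 := hG'2 x hx
      rw [mem_coe, mem_filter]
      exact ⟨h2.1, h2.2.2.2⟩
    · intro x _ x' _ hxx
      simp only at hxx
      omega
  refine le_trans ?_ (by exact_mod_cast h1 : (G'.card : ℝ) ≤ _)
  refine le_trans ?_ hw
  have hV0 : (0 : ℝ) < V.card := by exact_mod_cast hVne.card_pos
  rw [le_div_iff₀ hV0]
  have h2 : δ' / 4 * U ≤ G.card := by
    refine le_trans ?_ hGc
    have : δ' / 2 * (U / 2) ≤ δ' / 2 * S.card := by gcongr
    linarith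
  refine le_trans ?_ h2
  calc δ' / 8 * (U / (N : ℝ) ^ (r + 1)) * V.card
      ≤ δ' / 8 * (U / (N : ℝ) ^ (r + 1)) * (2 * (N : ℝ) ^ (r + 1)) := by gcongr
    _ = δ' / 4 * U := by field_simp; ring

end Pool.Agent.Helper51.UD
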