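import Pool.Agent.Helper51.UD.Out

/-!
# Many dilates
-/

set_option autoImplicit false

open Finset

namespace Pool.Agent.Helper51.UD

open Pool.Agent.Y880.RS (log_ev)

/-- the form with sets -/
theorem dilT (k : ℕ) (ε δ : ℝ) (hε : 0 < ε) (hε1 : ε < 1) (hδ : 0 < δ) :
    ∃ B X₀ : ℕ, ∀ X H : ℕ, X₀ ≤ X → Real.log X ^ B ≤ H → (H : ℝ) ≤ (X : ℝ) ^ (1 - ε) →
      ∀ P ⊆ Icc 1 X, (∀ p ∈ P, p.Prime) → δ * (X / Real.log X) ≤ P.card →
      ∀ T : Finset ℕ, T.card ≤ k → (∀ t ∈ T, t ≤ H) →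
        ∃ d : ℕ, 1 ≤ d ∧ (d : ℝ) ≤ (H : ℝ) ^ ε ∧ (X : ℝ) / (H : ℝ) ^ ε ≤
          (((Icc 1 X).filter (fun n => ∀ t ∈ T, n + d * t ∈ P)).card : ℝ) := by
  classical
  obtain ⟨B, X₀, h⟩ := dil (k + 1) (by omega) ε δ hε hε1 hδ
  obtain ⟨X₁, hX₁⟩ := log_ev (k + 1)
  refine ⟨B + 1, max X₀ X₁, fun X H hX hBH hHX P hP hPp hPc T hTk hT => ?_⟩
  have hX0 := h X H ((le_max_left _ _).trans hX)
  have hl := hX₁ X ((le_max_right _ _).trans hX)
  have hl1 : 1 ≤ Real.log X := by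
    have : (0 : ℝ) ≤ k := Nat.cast_nonneg k
    linarith
  have hBH' : Real.log X ^ B ≤ H := (pow_le_pow_right₀ hl1 (Nat.le_succ B)).trans hBH
  have hkH : k + 1 ≤ H := by
    have h1 : ((k + 1 : ℕ) : ℝ) ≤ H := by
      push_cast
      exact hl.trans ((le_self_pow₀ hl1 (Nat.succ_ne_zero B)).trans hBH)
    exact_mod_cast h1
  obtain ⟨T', hT1, hT2, hT3⟩ := exists_subsuperset_card_eq
    (show T ⊆ range (H + 1) from fun t ht => mem_range.2 (Nat.lt_succ_of_le (hT t ht)))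
    (show T.card ≤ k + 1 by omega) (show k + 1 ≤ (range (H + 1)).card by rw [card_range]; omega)
  let e := T'.equivFinOfCardEq hT3
  obtain ⟨d, hd1, hd2, hd3⟩ := hX0 hBH' hHX P hP hPp hPc (fun i => (e.symm i : ℕ))
    (fun i j hij => e.symm.injective (Subtype.ext hij))
    (fun i => Nat.lt_succ_iff.1 (mem_range.1 (hT2 (e.symm i).2)))
  refine ⟨d, hd1, hd2, hd3.trans ?_⟩
  have h2 : (Icc 1 X).filter (fun n => ∀ i, n + d * ((e.symm i : T') : ℕ) ∈ P) ⊆
      (Icc 1 X).filter (fun n => ∀ t ∈ T, n + d * t ∈ P) := by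
    intro n hn
    rw [mem_filter] at hn ⊢
    refine ⟨hn.1, fun t ht => ?_⟩
    have h3 := hn.2 (e ⟨t, hT1 ht⟩)
    simpa using h3
  exact_mod_cast card_le_card h2

/-- many dilates -/
theorem many (k : ℕ) (ε δ : ℝ) (hε : 0 < ε) (hε1 : ε < 1) (hδ : 0 < δ) :
    ∃ B X₀ : ℕ, ∀ X H D : ℕ, X₀ ≤ X → 1 ≤ H → Real.log X ^ B ≤ D → (H : ℝ) ^ ε ≤ D →
      (D : ℝ) * H ≤ (X : ℝ) ^ (1 - ε) →
      ∀ P ⊆ Icc 1 X, (∀ p ∈ P, p.Prime) → δ * (X / Real.log X) ≤ P.card →
      ∀ T : Finset ℕ, T.card ≤ k → (∀ t ∈ T, t ≤ H) →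
        (D : ℝ) ^ (1 - ε) ≤ (((Icc 1 D).filter (fun d => (X : ℝ) / (D : ℝ) ^ ε ≤
          (((Icc 1 X).filter (fun n => ∀ t ∈ T, n + d * t ∈ P)).card : ℝ))).card : ℝ) := by
  classical
  obtain ⟨ε', hε'⟩ : ∃ ε', ε' = ε ^ 2 / 8 := ⟨_, rfl⟩
  have hε'0 : 0 < ε' := by rw [hε']; positivity
  have hε'ε : ε' ≤ ε := by rw [hε']; nlinarith
  obtain ⟨B, X₀, h⟩ := dilT k ε' δ hε'0 (by linarith) hδ
  obtain ⟨X₁, hX₁⟩ := log_ev 2
  obtain ⟨C, hC⟩ : ∃ C, C = ⌈2 / ε⌉₊ := ⟨_, rfl⟩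
  have hC1 : 2 / ε ≤ (C : ℝ) := by rw [hC]; exact Nat.le_ceil _
  refine ⟨B + C, max (max X₀ X₁) 1, fun X H D hX hH hBD hHD hDX P hP hPp hPc T hTk hT => ?_⟩
  have hX0 := h X (D * H) (((le_max_left _ _).trans (le_max_left _ _)).trans hX)
  have hl := hX₁ X (((le_max_right _ _).trans (le_max_left _ _)).trans hX)
  have hX1 : 1 ≤ X := (le_max_right _ _).trans hX
  have hl1 : 1 ≤ Real.log X := by linarith
  have hHr : (1 : ℝ) ≤ H := by exact_mod_cast hH
  obtain ⟨y, hy⟩ : ∃ y : ℝ, y = D := ⟨_, rfl⟩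
  rw [← hy] at hBD hHD hDX ⊢
  have hD1 : 1 ≤ y := (one_le_pow₀ hl1).trans hBD
  have hD0 : 0 < y := by linarith
  have hDpos : 1 ≤ D := by
    rw [hy] at hD1
    exact_mod_cast hD1
  have hBD1 : Real.log X ^ B ≤ ((D * H : ℕ) : ℝ) := by
    calc Real.log X ^ B ≤ Real.log X ^ (B + C) := pow_le_pow_right₀ hl1 (Nat.le_add_right _ _)
      _ ≤ y := hBD
      _ ≤ y * H := le_mul_of_one_le_right hD0.le hHr
      _ = _ := by rw [hy]; push_cast; ring
  have h2y : 2 ≤ y ^ (ε / 2) := by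
    have h1 : Real.log X ^ (2 / ε) ≤ y := by
      refine le_trans ?_ hBD
      rw [← Real.rpow_natCast]
      apply Real.rpow_le_rpow_of_exponent_le hl1
      push_cast
      have : (0 : ℝ) ≤ B := Nat.cast_nonneg B
      linarith
    calc (2 : ℝ) ≤ Real.log X := hl
      _ = (Real.log X ^ (2 / ε)) ^ (ε / 2) := by
          rw [← Real.rpow_mul (by linarith)]
          have : 2 / ε * (ε / 2) = 1 := by field_simp
          rw [this, Real.rpow_one]
      _ ≤ y ^ (ε / 2) := Real.rpow_le_rpow (by positivity) h1 (by positivity)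
  -- the size of the dilations
  have hDH : ((D * H : ℕ) : ℝ) ^ ε' ≤ y ^ (ε / 4) := by
    have h1 : (H : ℝ) ≤ y ^ (1 / ε) := by
      calc (H : ℝ) = ((H : ℝ) ^ ε) ^ (1 / ε) := by
            rw [← Real.rpow_mul (by linarith)]
            have : ε * (1 / ε) = 1 := by field_simp
            rw [this, Real.rpow_one]
        _ ≤ y ^ (1 / ε) := Real.rpow_le_rpow (by positivity) hHD (by positivity)
    have h2 : ((D * H : ℕ) : ℝ) ≤ y ^ (2 / ε) := by
      push_cast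
      rw [← hy]
      calc y * H ≤ y ^ (1 : ℝ) * y ^ (1 / ε) := by
            rw [Real.rpow_one]
            exact mul_le_mul_of_nonneg_left h1 hD0.le
        _ = y ^ (1 + 1 / ε) := (Real.rpow_add hD0 _ _).symm
        _ ≤ y ^ (2 / ε) := by
            apply Real.rpow_le_rpow_of_exponent_le hD1
            have h3 : 1 ≤ 1 / ε := by
              rw [le_div_iff₀ hε]
              linarith
            have h4 : 2 / ε = 1 / ε + 1 / ε := by ring
            linarith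
    calc ((D * H : ℕ) : ℝ) ^ ε' ≤ (y ^ (2 / ε)) ^ ε' :=
          Real.rpow_le_rpow (by positivity) h2 hε'0.le
      _ = y ^ (ε / 4) := by
          rw [← Real.rpow_mul hD0.le, hε']
          congr 1
          field_simp
          ring
  obtain ⟨M, hM⟩ : ∃ M, M = ⌊y ^ (1 - ε / 4)⌋₊ := ⟨_, rfl⟩
  have hMy : (M : ℝ) ≤ y ^ (1 - ε / 4) := by rw [hM]; exact Nat.floor_le (by positivity)
  have hMD : M ≤ D := by
    have h1 : (M : ℝ) ≤ y := by
      refine hMy.trans ?_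
      calc y ^ (1 - ε / 4) ≤ y ^ (1 : ℝ) := Real.rpow_le_rpow_of_exponent_le hD1 (by linarith)
        _ = y := Real.rpow_one y
    rw [hy] at h1
    exact_mod_cast h1
  have hdil : ∀ m ∈ Icc 1 M, ∃ d : ℕ, 1 ≤ d ∧ (d : ℝ) ≤ y ^ (ε / 4) ∧ (X : ℝ) / y ^ ε ≤
      (((Icc 1 X).filter (fun n => ∀ t ∈ T, n + (m * d) * t ∈ P)).card : ℝ) := by
    intro m hm
    rw [mem_Icc] at hm
    obtain ⟨d, hd1, hd2, hd3⟩ := hX0 hBD1 (by
        push_cast
        rw [← hy]
        refine hDX.trans ?_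
        apply Real.rpow_le_rpow_of_exponent_le (by exact_mod_cast hX1)
        linarith) P hP hPp hPc (T.image (fun t => m * t)) (card_image_le.trans hTk) (by
        intro t ht
        rw [mem_image] at ht
        obtain ⟨t', ht', rfl⟩ := ht
        exact Nat.mul_le_mul (hm.2.trans hMD) (hT t' ht'))
    refine ⟨d, hd1, hd2.trans hDH, le_trans ?_ (hd3.trans ?_)⟩
    · apply div_le_div_of_nonneg_left (by positivity)
      · have : 0 < ((D * H : ℕ) : ℝ) := by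
          have : 0 < D * H := Nat.mul_pos hDpos hH
          exact_mod_cast this
        positivity
      · refine hDH.trans ?_
        exact Real.rpow_le_rpow_of_exponent_le hD1 (by linarith)
    · have h2 : (Icc 1 X).filter (fun n => ∀ t ∈ T.image (fun t => m * t), n + d * t ∈ P) ⊆
          (Icc 1 X).filter (fun n => ∀ t ∈ T, n + (m * d) * t ∈ P) := by
        intro n hn
        rw [mem_filter] at hn ⊢
        refine ⟨hn.1, fun t ht => ?_⟩
        have h3 := hn.2 (m * t) (mem_image_of_mem _ ht)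
        have h4 : m * d * t = d * (m * t) := by ring
        rw [h4]
        exact h3
      exact_mod_cast card_le_card h2
  choose! dd hdd using hdil
  obtain ⟨G, hG⟩ : ∃ G, G = (Icc 1 D).filter (fun d => (X : ℝ) / y ^ ε ≤
    (((Icc 1 X).filter (fun n => ∀ t ∈ T, n + d * t ∈ P)).card : ℝ)) := ⟨_, rfl⟩
  rw [← hG]
  have hmaps : ∀ m ∈ Icc 1 M, m * dd m ∈ G := by
    intro m hm
    obtain ⟨h1, h2, h3⟩ := hdd m hm
    rw [hG, mem_filter, mem_Icc]
    refine ⟨⟨Nat.mul_pos (mem_Icc.1 hm).1 h1, ?_⟩, h3⟩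
    have h4 : ((m * dd m : ℕ) : ℝ) ≤ y := by
      push_cast
      have h5 : (m : ℝ) ≤ M := by exact_mod_cast (mem_Icc.1 hm).2
      calc (m : ℝ) * dd m ≤ y ^ (1 - ε / 4) * y ^ (ε / 4) :=
            mul_le_mul (h5.trans hMy) h2 (by positivity) (by positivity)
        _ = y ^ (1 : ℝ) := by
            rw [← Real.rpow_add hD0]
            congr 1
            ring
        _ = y := Real.rpow_one y
    rw [hy] at h4
    exact_mod_cast h4
  have hcard := card_le_mul_card_image_of_maps_to hmaps ⌊y ^ (ε / 4)⌋₊ (by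
    intro v _
    have h1 : ((Icc 1 M).filter (fun m => m * dd m = v)).card ≤ (Icc 1 ⌊y ^ (ε / 4)⌋₊).card := by
      refine card_le_card_of_injOn dd ?_ ?_
      · intro m hm
        rw [mem_coe, mem_filter] at hm
        obtain ⟨h1, h2, h3⟩ := hdd m hm.1
        rw [mem_coe, mem_Icc]
        exact ⟨h1, Nat.le_floor h2⟩
      · intro m hm m' hm' hmm
        rw [mem_coe, mem_filter] at hm hm'
        obtain ⟨h1, _, _⟩ := hdd m hm.1
        have h4 : m * dd m = m' * dd m := by rw [hm.2]; rw [hmm]; exact hm'.2.symm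
        exact Nat.eq_of_mul_eq_mul_right h1 h4
    rw [Nat.card_Icc, Nat.add_sub_cancel] at h1
    exact h1)
  rw [Nat.card_Icc, Nat.add_sub_cancel] at hcard
  have h1 : (M : ℝ) ≤ y ^ (ε / 4) * G.card := by
    have h2 : (M : ℝ) ≤ (⌊y ^ (ε / 4)⌋₊ : ℝ) * G.card := by exact_mod_cast hcard
    have h3 := Nat.floor_le (show 0 ≤ y ^ (ε / 4) by positivity)
    have h4 : (⌊y ^ (ε / 4)⌋₊ : ℝ) * G.card ≤ y ^ (ε / 4) * G.card :=
      mul_le_mul_of_nonneg_right h3 (Nat.cast_nonneg _)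
    linarith
  have h2 : y ^ (1 - ε / 4) < M + 1 := by rw [hM]; exact Nat.lt_floor_add_one _
  have h3 : 1 ≤ y ^ (1 - ε / 4) := Real.one_le_rpow hD1 (by linarith)
  have h4 : 1 ≤ (M : ℝ) := by
    have : 1 ≤ M := by rw [hM]; exact Nat.le_floor (by simpa using h3)
    exact_mod_cast this
  have h5 : y ^ (1 - ε / 4) ≤ 2 * (y ^ (ε / 4) * G.card) := by linarith
  have h6 : y ^ (1 - ε / 4) = y ^ (ε / 4) * (y ^ (ε / 2) * y ^ (1 - ε)) := by
    rw [← Real.rpow_add hD0, ← Real.rpow_add hD0]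
    congr 1
    ring
  rw [h6] at h5
  have h7 : 0 < y ^ (ε / 4) := by positivity
  have h8 : y ^ (ε / 2) * y ^ (1 - ε) ≤ 2 * G.card := by
    have : y ^ (ε / 4) * (y ^ (ε / 2) * y ^ (1 - ε)) ≤ y ^ (ε / 4) * (2 * G.card) := by linarith
    exact le_of_mul_le_mul_left this h7
  have h9 : 2 * y ^ (1 - ε) ≤ y ^ (ε / 2) * y ^ (1 - ε) :=
    mul_le_mul_of_nonneg_right h2y (by positivity)
  linarith

end Pool.Agent.Helper51.UD
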