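import Pool.Agent.Helper51.UD.ArithK
import Pool.Agent.Helper51.UD.Out
import Pool.Graph.R_seed8.Y677.RSZ.Eng2
import Pool.Graph.R_seed8.Y960.NP.Nar

/-!
# Dilates of arbitrary bounded sets of shifts in dense sets of tuples of rough numbers
-/

set_option autoImplicit false

open Finset

namespace Pool.Agent.Helper51.UD

open Pool.Agent.Y880.RS (log_ev)
open Pool.Agent.Y677.RSZ (rt pig)
open Pool.Agent.Y960.NP (FH FH_dvd FH_per)

theorem cls_cnt (Hs : Finset ℕ) (Q : ℕ) (hQ : Squarefree Q) :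
    (((range Q).filter (fun b : ℕ => ∀ p ∈ Q.primeFactors, ¬ (p : ℤ) ∣ FH Hs b)).card : ℝ) ≤
      2 ^ (Hs.card * (Hs.sup id + 1)) * (Q * ((Q.totient : ℝ) / Q) ^ Hs.card) := by
  classical
  have hQ0 : 0 < Q := Nat.pos_of_ne_zero hQ.ne_zero
  have hQ0' : (0 : ℝ) < Q := by exact_mod_cast hQ0
  have h1 : ((range Q).filter (fun b : ℕ => ∀ p ∈ Q.primeFactors, ¬ (p : ℤ) ∣ FH Hs b)).card =
      ∏ p ∈ Q.primeFactors, (p - rt (FH Hs) p) := by
    have := pig (FH Hs) (FH_per Hs) Q hQ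
    convert this
  have h2 : ((∏ p ∈ Q.primeFactors, (p - rt (FH Hs) p) : ℕ) : ℝ) ≤
      ∏ p ∈ Q.primeFactors, ((if p ≤ Hs.sup id then (2 : ℝ) ^ Hs.card else 1) *
        ((p : ℝ) * (1 - 1 / (p : ℝ)) ^ Hs.card)) := by
    rw [Nat.cast_prod]
    refine prod_le_prod (fun p _ => Nat.cast_nonneg _) fun p hp => ?_
    have hpp := Nat.prime_of_mem_primeFactors hp
    have hp2 : (2 : ℝ) ≤ p := by exact_mod_cast hpp.two_le
    have h3 : (0 : ℝ) < p := by linarith
    split_ifs with h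
    · have h4 : (1 : ℝ) ≤ 2 * (1 - 1 / (p : ℝ)) := by
        have : 1 / (p : ℝ) ≤ 1 / 2 := one_div_le_one_div_of_le (by norm_num) hp2
        linarith
      calc ((p - rt (FH Hs) p : ℕ) : ℝ) ≤ p := by exact_mod_cast Nat.sub_le _ _
        _ ≤ p * (2 * (1 - 1 / (p : ℝ))) ^ Hs.card :=
          le_mul_of_one_le_right h3.le (one_le_pow₀ h4)
        _ = _ := by rw [mul_pow]; ring
    · rw [one_mul]
      have h4 := Pool.Agent.Y960.NP.rt_ge Hs p hpp (not_le.1 h)
      have h5 : (Hs.card : ℝ) ≤ rt (FH Hs) p := by exact_mod_cast h4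
      have h6 := one_add_mul_le_pow (a := -(1 / (p : ℝ))) (by
        have : 1 / (p : ℝ) ≤ 1 / 2 := one_div_le_one_div_of_le (by norm_num) hp2
        linarith) Hs.card
      have h7 : rt (FH Hs) p ≤ p := by
        unfold rt
        exact (card_filter_le _ _).trans (card_range p).le
      have h8 : ((p - rt (FH Hs) p : ℕ) : ℝ) = p * (1 - (rt (FH Hs) p : ℝ) / p) := by
        rw [Nat.cast_sub h7]
        field_simp
      rw [h8]
      apply mul_le_mul_of_nonneg_left _ h3.le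
      calc 1 - (rt (FH Hs) p : ℝ) / p ≤ 1 - (Hs.card : ℝ) / p := by
            have := div_le_div_of_nonneg_right h5 h3.le
            linarith
        _ = 1 + (Hs.card : ℝ) * -(1 / (p : ℝ)) := by ring
        _ ≤ _ := h6
  rw [h1]
  refine h2.trans ?_
  have h3 : ∏ p ∈ Q.primeFactors, ((p : ℝ) * (1 - 1 / (p : ℝ)) ^ Hs.card) =
      Q * ((Q.totient : ℝ) / Q) ^ Hs.card := by
    rw [prod_mul_distrib, prod_pow]
    have e1 : ∏ p ∈ Q.primeFactors, (p : ℝ) = Q := by
      conv_rhs => rw [← Nat.prod_primeFactors_of_squarefree hQ]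
      push_cast
      rfl
    have e2 : ∏ p ∈ Q.primeFactors, (1 - 1 / (p : ℝ)) = (Q.totient : ℝ) / Q := by
      have e3 := Nat.totient_eq_mul_prod_factors Q
      have e4 : (Q.totient : ℝ) = Q * ∏ p ∈ Q.primeFactors, (1 - (p : ℝ)⁻¹) := by
        have := congrArg (fun x : ℚ => (x : ℝ)) e3
        push_cast at this
        exact this
      rw [e4]
      simp only [one_div]
      field_simp
    rw [e1, e2]
  rw [prod_mul_distrib, h3]
  apply mul_le_mul_of_nonneg_right _ (by positivity)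
  rw [prod_ite, prod_const_one, mul_one, prod_const, ← pow_mul]
  apply pow_le_pow_right₀ (by norm_num)
  apply Nat.mul_le_mul_left
  calc (Q.primeFactors.filter fun p => p ≤ Hs.sup id).card ≤ (range (Hs.sup id + 1)).card := by
        refine card_le_card fun p hp => ?_
        rw [mem_filter] at hp
        rw [mem_range]
        omega
    _ = _ := card_range _

/-- the best class for tuples -/
theorem class_exK {κ : ℕ} (v : Fin κ → ℕ) (hv : Function.Injective v) : ∃ C : ℝ, 0 < C ∧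
    ∀ (P : Finset ℕ) (Q : ℕ), Squarefree Q →
      (∀ n ∈ P, ∀ i, ∀ p : ℕ, p.Prime → p ∣ Q → ¬ p ∣ n + v i) →
      ∃ a, (P.card : ℝ) / (C * (Q * ((Q.totient : ℝ) / Q) ^ κ)) ≤
        (P.filter (fun p => p % Q = a % Q)).card := by
  classical
  obtain ⟨Hs, hHs⟩ : ∃ Hs : Finset ℕ, Hs = univ.image v := ⟨_, rfl⟩
  have hc : Hs.card = κ := by
    rw [hHs, card_image_of_injective _ hv, card_univ, Fintype.card_fin]
  refine ⟨2 ^ (Hs.card * (Hs.sup id + 1)), by positivity, fun P Q hQ hP => ?_⟩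
  have hQ0 : 0 < Q := Nat.pos_of_ne_zero hQ.ne_zero
  obtain ⟨V, hV⟩ : ∃ V, V = (range Q).filter (fun b : ℕ => ∀ p ∈ Q.primeFactors,
    ¬ (p : ℤ) ∣ FH Hs b) := ⟨_, rfl⟩
  have hVc := cls_cnt Hs Q hQ
  rw [← hV, hc] at hVc
  rcases P.eq_empty_or_nonempty with rfl | hPne
  · refine ⟨0, ?_⟩
    simp
  have hmaps : ∀ p ∈ P, p % Q ∈ V := by
    intro n hn
    rw [hV, mem_filter, mem_range]
    refine ⟨Nat.mod_lt _ hQ0, fun p hp hd => ?_⟩
    have hpp := Nat.prime_of_mem_primeFactors hp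
    have hpQ := Nat.dvd_of_mem_primeFactors hp
    rw [FH_dvd Hs hpp] at hd
    obtain ⟨h, hh, hd⟩ := hd
    rw [hHs, mem_image] at hh
    obtain ⟨i, _, rfl⟩ := hh
    have h1 : p ∣ n % Q + v i := by exact_mod_cast hd
    apply hP n hn i p hpp hpQ
    have h2 : n + v i = (n % Q + v i) + Q * (n / Q) := by
      have := Nat.mod_add_div n Q
      omega
    rw [h2]
    exact dvd_add h1 (hpQ.mul_right _)
  have hVne : V.Nonempty := by
    obtain ⟨n, hn⟩ := hPne
    exact ⟨_, hmaps n hn⟩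
  have hV0 : (0 : ℝ) < V.card := by exact_mod_cast hVne.card_pos
  by_contra hcon
  push Not at hcon
  have h1 : (P.card : ℝ) < ∑ a ∈ V, (P.card : ℝ) / V.card := by
    have h2 : P.card = ∑ a ∈ V, (P.filter (fun p => p % Q = a)).card :=
      card_eq_sum_card_fiberwise hmaps
    have h3 : (P.card : ℝ) = ∑ a ∈ V, ((P.filter (fun p => p % Q = a)).card : ℝ) := by
      exact_mod_cast h2
    rw [h3]
    conv_rhs => rw [← h3]
    refine sum_lt_sum_of_nonempty hVne fun a ha => ?_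
    have h4 := hcon a
    rw [hV, mem_filter, mem_range] at ha
    rw [Nat.mod_eq_of_lt ha.1] at h4
    refine h4.trans_le ?_
    apply div_le_div_of_nonneg_left (Nat.cast_nonneg _) hV0
    rw [← hc] at hVc ⊢
    exact hVc
  rw [sum_const, nsmul_eq_mul, mul_div_cancel₀] at h1
  · exact lt_irrefl _ h1
  · exact hV0.ne'

end Pool.Agent.Helper51.UD
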