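import Pool.Graph.R_seed8.Y727.PSP.Stm
import Pool.Graph.R_seed8.Y46.PSP.Var

/-!
# Szemerédi's theorem for homothetic copies of arbitrary finite patterns in modules over `ZMod N`,
with a positive proportion (from density Hales-Jewett; the argument is that of `Y46.PSP.Var`).
-/

set_option autoImplicit false

open Finset

namespace Pool.Agent.Helper51.UD

open Pool.Agent.H602R3.DHJ
open Pool.Agent.Y46.PSP (av_addRight av_hom)

theorem var_set_mod (q : ℕ) (δ : ℝ) (hδ : 0 < δ) : ∃ c : ℝ, 0 < c ∧ ∀ (N : ℕ) [NeZero N]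
    (G : Type) [AddCommGroup G] [Fintype G] [Module (ZMod N) G] (cs : Fin (q + 1) → G)
    (A : Set G), δ ≤ dn A → c ≤ av (fun p : G × ZMod N =>
      ∏ a : Fin (q + 1), A.indicator (fun _ => (1 : ℝ)) (p.1 + p.2 • cs a)) := by
  classical
  obtain ⟨r, hr⟩ := dhj q (δ / 2) (by positivity)
  obtain ⟨T, hT⟩ : ∃ T : ℕ, T = Fintype.card (Fin r → Fin (q + 1) ⊕ Unit) := ⟨_, rfl⟩
  have hT0 : 0 < T := by
    rw [hT]
    exact Fintype.card_pos
  have hT0' : (0 : ℝ) < T := by exact_mod_cast hT0
  refine ⟨δ / 2 / T, by positivity, fun N _ G _ _ _ cs A hA => ?_⟩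
  set I : G → ℝ := A.indicator (fun _ => (1 : ℝ)) with hI
  have hI0 : ∀ x, 0 ≤ I x := fun x => Set.indicator_nonneg (fun _ _ => zero_le_one) x
  let W : (Fin r → ZMod N) × G → Set (Fin r → Fin (q + 1)) :=
    fun z => {u | z.2 + ∑ i, z.1 i • cs (u i) ∈ A}
  have hW : ∀ z, dn (W z) =
      av (fun u : Fin r → Fin (q + 1) => I (z.2 + ∑ i, z.1 i • cs (u i))) := fun z => rfl
  have h1 : av (fun z => dn (W z)) = dn A := by
    rw [show (fun z => dn (W z)) =
      fun z => av (fun u : Fin r → Fin (q + 1) => I (z.2 + ∑ i, z.1 i • cs (u i))) from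
      funext hW, av_comm]
    have h2 : ∀ u : Fin r → Fin (q + 1), av (fun z : (Fin r → ZMod N) × G =>
        I (z.2 + ∑ i, z.1 i • cs (u i))) = av I := by
      intro u
      rw [av_prod]
      have h3 : ∀ h : Fin r → ZMod N, av (fun x : G => I (x + ∑ i, h i • cs (u i))) = av I :=
        fun h => av_addRight I _
      rw [show (fun h : Fin r → ZMod N => av (fun x : G => I (x + ∑ i, h i • cs (u i)))) =
        fun _ => av I from funext h3]
      exact av_const _
    rw [show (fun u : Fin r → Fin (q + 1) => av (fun z : (Fin r → ZMod N) × G =>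
        I (z.2 + ∑ i, z.1 i • cs (u i)))) = fun _ => av I from funext h2]
    exact av_const _
  have h2 : δ / 2 ≤ dn {z | δ / 2 ≤ dn (W z)} :=
    dn_large _ (fun z => dn_le_one _) (by rw [h1]; linarith) (by linarith)
  let Gf : ZMod N → ℝ := fun d => av (fun x : G => ∏ a : Fin (q + 1), I (x + d • cs a))
  have hG0 : 0 ≤ av Gf := av_nonneg fun d => av_nonneg fun x => prod_nonneg fun a _ => hI0 _
  have h3 : ∀ V : Fin r → Fin (q + 1) ⊕ Unit, Pr V →
      av (fun z : (Fin r → ZMod N) × G =>
        ∏ a, I (z.2 + ∑ i, z.1 i • cs (ap V (fun _ => a) i))) = av Gf := by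
    intro V hV
    obtain ⟨i₀, hi₀⟩ := hV ()
    let s : (Fin r → ZMod N) → G := fun h =>
      ∑ i, Sum.elim (fun b => h i • cs b) (fun _ => 0) (V i)
    let d : (Fin r → ZMod N) → ZMod N := fun h =>
      ∑ i, Sum.elim (fun _ => 0) (fun _ => h i) (V i)
    have hsd : ∀ (h : Fin r → ZMod N) (a : Fin (q + 1)),
        ∑ i, h i • cs (ap V (fun _ => a) i) = s h + d h • cs a := by
      intro h a
      simp only [s, d]
      rw [sum_smul, ← sum_add_distrib]
      refine sum_congr rfl fun i _ => ?_
      unfold ap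
      rcases V i with b | u
      · simp
      · simp
    have hd : ∀ (h : Fin r → ZMod N) (t : ZMod N), d (h + Pi.single i₀ t) = t + d h := by
      intro h t
      simp only [d]
      have e1 : t = ∑ i, Sum.elim (fun _ => 0) (fun _ => (Pi.single i₀ t : Fin r → ZMod N) i)
          (V i) := by
        rw [sum_eq_single i₀]
        · rw [hi₀]
          simp
        · intro i _ hi
          rcases V i with b | u
          · rfl
          · simp only [Sum.elim_inr]
            exact Pi.single_eq_of_ne (M := fun _ : Fin r => ZMod N) hi t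
        · intro h
          exact absurd (mem_univ _) h
      conv_rhs => rw [e1]
      rw [← sum_add_distrib]
      refine sum_congr rfl fun i _ => ?_
      rcases V i with b | u
      · simp
      · simp only [Sum.elim_inr, Pi.add_apply]
        exact add_comm _ _
    calc av (fun z : (Fin r → ZMod N) × G =>
        ∏ a, I (z.2 + ∑ i, z.1 i • cs (ap V (fun _ => a) i)))
        = av (fun h : Fin r → ZMod N => Gf (d h)) := by
          rw [av_prod]
          refine congrArg av (funext fun h => ?_)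
          refine Eq.trans (congrArg av (funext fun x => ?_))
            (av_addRight (fun x : G => ∏ a : Fin (q + 1), I (x + d h • cs a)) (s h))
          refine prod_congr rfl fun a _ => ?_
          show I (x + ∑ i, h i • cs (ap V (fun _ => a) i)) = I (x + s h + d h • cs a)
          rw [hsd, add_assoc]
      _ = av Gf := av_hom Gf d (fun t => Pi.single i₀ t) hd
  -- the union bound
  have h4 : ∀ z, Set.indicator {z | δ / 2 ≤ dn (W z)} (fun _ => (1 : ℝ)) z ≤
      ∑ V : Fin r → Fin (q + 1) ⊕ Unit, if Pr V then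
        ∏ a, I (z.2 + ∑ i, z.1 i • cs (ap V (fun _ => a) i)) else 0 := by
    intro z
    have h0 : ∀ V ∈ (univ : Finset (Fin r → Fin (q + 1) ⊕ Unit)), 0 ≤ if Pr V then
        ∏ a, I (z.2 + ∑ i, z.1 i • cs (ap V (fun _ => a) i)) else 0 := by
      intro V _
      split_ifs
      · exact prod_nonneg fun a _ => hI0 _
      · exact le_rfl
    by_cases hz : δ / 2 ≤ dn (W z)
    · rw [Set.indicator_of_mem (by exact hz)]
      have h5 : ∃ V : Fin r → Fin (q + 1) ⊕ Unit, Pr V ∧ ∀ a, ap V (fun _ => a) ∈ W z := by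
        by_contra hcon
        push Not at hcon
        exact absurd hz (not_le.2 (hr (W z) hcon))
      obtain ⟨V, hV, hVW⟩ := h5
      refine le_trans ?_ (single_le_sum h0 (mem_univ V))
      rw [if_pos hV]
      refine le_of_eq (Eq.symm (prod_eq_one fun a _ => ?_))
      exact Set.indicator_of_mem (show z.2 + ∑ i, z.1 i • cs (ap V (fun _ => a) i) ∈ A from
        hVW a) _
    · rw [Set.indicator_of_notMem (by exact hz)]
      exact sum_nonneg h0
  have h5 : δ / 2 ≤ T * av Gf := by
    refine h2.trans ?_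
    unfold dn
    refine (av_mono h4).trans ?_
    rw [av_sum]
    calc _ ≤ ∑ V : Fin r → Fin (q + 1) ⊕ Unit, av Gf := by
          refine sum_le_sum fun V _ => ?_
          by_cases hV : Pr V
          · simp only [if_pos hV]
            exact (h3 V hV).le
          · simp only [if_neg hV]
            rw [av_const]
            exact hG0
      _ = T * av Gf := by
          rw [sum_const, card_univ, nsmul_eq_mul, ← hT]
  have h6 : av (fun p : G × ZMod N => ∏ a : Fin (q + 1), I (p.1 + p.2 • cs a)) =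
      av Gf := by
    rw [av_prod, av_comm]
  rw [h6, div_le_iff₀' hT0']
  exact h5

/-- a positive proportion of the homothetic copies `p + d • cs a` -/
theorem var_mod (q : ℕ) (δ : ℝ) (hδ : 0 < δ) : ∃ c : ℝ, 0 < c ∧ ∀ (N : ℕ) [NeZero N]
    (G : Type) [AddCommGroup G] [Fintype G] [Module (ZMod N) G] (cs : Fin (q + 1) → G)
    (f : G → ℝ), (∀ a, 0 ≤ f a ∧ f a ≤ 1) → δ ≤ av f → c ≤ av (fun p : G × ZMod N =>
      ∏ a : Fin (q + 1), f (p.1 + p.2 • cs a)) := by
  classical
  obtain ⟨c, hc, h⟩ := var_set_mod q (δ / 2) (by positivity)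
  refine ⟨(δ / 2) ^ (q + 1) * c, by positivity, fun N _ G _ _ _ cs f hf hδf => ?_⟩
  have hA : δ / 2 ≤ dn {a | δ / 2 ≤ f a} :=
    dn_large f (fun x => (hf x).2) (by linarith) (by linarith)
  have h1 := h N G cs _ hA
  have h2 := mul_le_mul_of_nonneg_left h1 (show 0 ≤ (δ / 2) ^ (q + 1) by positivity)
  refine h2.trans ?_
  rw [← av_mul]
  refine av_mono fun p => ?_
  by_cases hp : ∀ a : Fin (q + 1), δ / 2 ≤ f (p.1 + p.2 • cs a)
  · have e1 : ∏ a : Fin (q + 1), Set.indicator {a | δ / 2 ≤ f a} (fun _ => (1 : ℝ))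
        (p.1 + p.2 • cs a) = 1 :=
      prod_eq_one fun a _ => Set.indicator_of_mem
        (show p.1 + p.2 • cs a ∈ {a | δ / 2 ≤ f a} from hp a) _
    rw [e1, mul_one]
    calc (δ / 2) ^ (q + 1) = ∏ _a : Fin (q + 1), (δ / 2) := by
          rw [prod_const, card_univ, Fintype.card_fin]
      _ ≤ _ := prod_le_prod (fun _ _ => by positivity) fun a _ => hp a
  · push Not at hp
    obtain ⟨a, ha⟩ := hp
    have e1 : ∏ a : Fin (q + 1), Set.indicator {a | δ / 2 ≤ f a} (fun _ => (1 : ℝ))
        (p.1 + p.2 • cs a) = 0 :=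
      prod_eq_zero (mem_univ a) (Set.indicator_of_notMem
        (show p.1 + p.2 • cs a ∉ {a | δ / 2 ≤ f a} from not_le.2 ha) _)
    rw [e1, mul_zero]
    exact prod_nonneg fun a _ => (hf _).1

end Pool.Agent.Helper51.UD
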