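import Pool.Graph.R_seed8.Y880.RS.Rs0
import Pool.Agent.Helper51.UD.Var

/-!
# The relative Szemerédi theorem for simplices `p, p + d e_1, ..., p + d e_r` in `(ℤ/N)^r`

The method of Conlon, Fox and Zhao; the hypergraph part (`S_SLF`, `S_CNT`, `S_DMT`) is from the
library. The dense model is taken with respect to the products of functions which are invariant
under the differences of two vertices of the simplex.
-/

set_option autoImplicit false

open Finset

namespace Pool.Agent.Helper51.UD

open Pool.Agent.H602R3.DHJ (av av_const av_mono av_nonneg av_add av_sub av_mul av_sum av_equiv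
  av_prod av_comm)
open Pool.Agent.Y727.PSP
open Pool.Agent.Y46.PSP (abs_av_le av_tr av_update)

variable {r N : ℕ}

/-- the vertices of the simplex -/
def bv (j : Fin (r + 1)) : Fin r → ZMod N := fun l => if j = l.succ then 1 else 0

/-- the `j`-th form -/
def Lx (j : Fin (r + 1)) (x : Fin (r + 1) → ZMod N) : Fin r → ZMod N :=
  (fun l => x l.succ) - (∑ i, x i) • bv j

/-- the vector with sum zero and tail `z` -/
def pl (z : Fin r → ZMod N) : Fin (r + 1) → ZMod N := Fin.cons (-∑ l, z l) z

theorem Lx_apply (j : Fin (r + 1)) (x : Fin (r + 1) → ZMod N) (l : Fin r) :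
    Lx j x l = x l.succ - if j = l.succ then ∑ i, x i else 0 := by
  simp [Lx, bv]

theorem pl_zero (z : Fin r → ZMod N) : pl z 0 = -∑ l, z l := rfl

theorem pl_succ (z : Fin r → ZMod N) (l : Fin r) : pl z l.succ = z l := rfl

theorem sum_pl (z : Fin r → ZMod N) : ∑ i, pl z i = 0 := by
  rw [Fin.sum_univ_succ, pl_zero]
  simp [pl_succ]

theorem Lx_pl (j : Fin (r + 1)) (z : Fin r → ZMod N) : Lx j (pl z) = z := by
  funext l
  rw [Lx_apply, sum_pl, pl_succ]
  simp

theorem Lx_upd (j : Fin (r + 1)) (x : Fin (r + 1) → ZMod N) (v : ZMod N) :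
    Lx j (Function.update x j v) = Lx j x := by
  funext l
  rw [Lx_apply, Lx_apply]
  have h1 : ∑ i, Function.update x j v i = ∑ i, x i + (v - x j) := by
    rw [sum_update_of_mem (mem_univ j), ← sum_erase_add _ _ (mem_univ j), sdiff_singleton_eq_erase]
    ring
  by_cases h : j = l.succ
  · rw [if_pos h, if_pos h, h1, h, Function.update_self]
    ring
  · rw [if_neg h, if_neg h, Function.update_of_ne (Ne.symm h)]

theorem pl_Lx (j : Fin (r + 1)) (x : Fin (r + 1) → ZMod N) (i : Fin (r + 1)) (hi : i ≠ j) :
    pl (Lx j x) i = x i := by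
  induction i using Fin.cases with
  | zero =>
    rw [pl_zero]
    have h1 : ∑ l, Lx j x l = ∑ l : Fin r, x l.succ - ∑ i, x i := by
      simp_rw [Lx_apply]
      rw [sum_sub_distrib]
      congr 1
      obtain ⟨l₀, rfl⟩ := Fin.exists_succ_eq.2 hi.symm
      rw [sum_eq_single l₀]
      · rw [if_pos rfl]
      · intro l _ hl
        rw [if_neg (fun h => hl (Fin.succ_injective _ h.symm))]
      · intro h
        exact absurd (mem_univ _) h
    rw [h1, Fin.sum_univ_succ x]
    ring
  | succ l =>
    rw [pl_succ, Lx_apply, if_neg (Ne.symm hi), sub_zero]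

/-- the coordinates `(Lx j x, x j)` -/
def EJ (j : Fin (r + 1)) : (Fin r → ZMod N) × ZMod N ≃ (Fin (r + 1) → ZMod N) where
  toFun p := Function.update (pl p.1) j p.2
  invFun x := (Lx j x, x j)
  left_inv p := by
    refine Prod.ext ?_ ?_
    · show Lx j (Function.update (pl p.1) j p.2) = p.1
      rw [Lx_upd, Lx_pl]
    · show Function.update (pl p.1) j p.2 j = p.2
      rw [Function.update_self]
  right_inv x := by
    funext i
    show Function.update (pl (Lx j x)) j (x j) i = x i
    by_cases hi : i = j
    · subst hi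
      rw [Function.update_self]
    · rw [Function.update_of_ne hi, pl_Lx j x i hi]

theorem EJ_apply (j : Fin (r + 1)) (p : (Fin r → ZMod N) × ZMod N) :
    EJ j p = Function.update (pl p.1) j p.2 := rfl

theorem pl_add_smul (z : Fin r → ZMod N) (s : ZMod N) (i j k : Fin (r + 1)) (hki : k ≠ i)
    (hkj : k ≠ j) : pl (z + s • (bv i - bv j)) k = pl z k := by
  have hb : ∀ i : Fin (r + 1), ∑ l : Fin r, (bv i : Fin r → ZMod N) l = if i = 0 then 0 else 1 := by
    intro i
    induction i using Fin.cases with
    | zero =>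
      rw [if_pos rfl]
      exact sum_eq_zero fun l _ => if_neg (Fin.succ_ne_zero l).symm
    | succ l₀ =>
      rw [if_neg (Fin.succ_ne_zero l₀), sum_eq_single l₀]
      · exact if_pos rfl
      · intro l _ hl
        exact if_neg (fun h => hl (Fin.succ_injective _ h.symm))
      · intro h
        exact absurd (mem_univ _) h
  induction k using Fin.cases with
  | zero =>
    rw [pl_zero, pl_zero]
    have h1 : ∑ l, (z + s • (bv i - bv j) : Fin r → ZMod N) l = ∑ l, z l + s * (∑ l, (bv i : Fin r → ZMod N) l -
        ∑ l, (bv j : Fin r → ZMod N) l) := by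
      rw [← sum_sub_distrib, mul_sum, ← sum_add_distrib]
      rfl
    rw [h1, hb, hb, if_neg (Ne.symm hki), if_neg (Ne.symm hkj)]
    ring
  | succ l =>
    rw [pl_succ, pl_succ]
    show z l + s • ((if i = l.succ then (1 : ZMod N) else 0) - if j = l.succ then 1 else 0) = z l
    rw [if_neg (Ne.symm hki), if_neg (Ne.symm hkj)]
    simp

theorem Ind_Lx [NeZero N] (j : Fin (r + 1)) (F : (Fin r → ZMod N) → ℝ) :
    Ind j (fun x : Fin (r + 1) → ZMod N => F (Lx j x)) := by
  intro x v
  show F _ = F _
  rw [Lx_upd]

/-! ## The test functions -/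

/-- products of functions invariant under the differences of two vertices -/
def DPhi (r N : ℕ) : Set ((Fin r → ZMod N) → ℝ) :=
  {φ | ∃ F : Fin (r + 1) × Fin (r + 1) → (Fin r → ZMod N) → ℝ,
    (∀ e z (s : ZMod N), F e (z + s • (bv e.1 - bv e.2)) = F e z) ∧
    (∀ e z, |F e z| ≤ 1) ∧ ∀ z, φ z = ∏ e ∈ (univ : Finset (Fin (r + 1))).offDiag, F e z}

theorem DPhi_le {φ : (Fin r → ZMod N) → ℝ} (h : φ ∈ DPhi r N) (z : Fin r → ZMod N) : |φ z| ≤ 1 := by
  obtain ⟨F, _, h2, h3⟩ := h
  rw [h3, abs_prod]
  exact prod_le_one (fun _ _ => abs_nonneg _) fun e _ => h2 e z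

theorem DPhi_one : (fun _ => 1) ∈ DPhi r N :=
  ⟨fun _ _ => 1, fun _ _ _ => rfl, fun _ _ => by simp, fun _ => by simp⟩

theorem DPhi_neg (hr : 1 ≤ r) {φ : (Fin r → ZMod N) → ℝ} (h : φ ∈ DPhi r N) : -φ ∈ DPhi r N := by
  classical
  obtain ⟨F, h1, h2, h3⟩ := h
  have he : ((0 : Fin (r + 1)), (⟨1, by omega⟩ : Fin (r + 1))) ∈
      (univ : Finset (Fin (r + 1))).offDiag := by
    rw [mem_offDiag]
    refine ⟨mem_univ _, mem_univ _, fun h => ?_⟩
    have := congrArg Fin.val h
    simp at this
  set e₀ : Fin (r + 1) × Fin (r + 1) := (0, ⟨1, by omega⟩) with he₀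
  refine ⟨fun e z => if e = e₀ then -F e z else F e z, fun e z s => ?_, fun e z => ?_, fun z => ?_⟩
  · simp only [h1]
  · show |if e = e₀ then -F e z else F e z| ≤ 1
    split_ifs
    · rw [abs_neg]
      exact h2 e z
    · exact h2 e z
  · rw [Pi.neg_apply, h3, ← mul_prod_erase _ _ he,
      ← mul_prod_erase _ (fun e => if e = e₀ then -F e z else F e z) he, if_pos rfl, neg_mul]
    congr 2
    exact prod_congr rfl fun e he => by rw [if_neg (mem_erase.1 he).1]

theorem DPhi_mul {φ ψ : (Fin r → ZMod N) → ℝ} (h : φ ∈ DPhi r N) (h' : ψ ∈ DPhi r N) :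
    φ * ψ ∈ DPhi r N := by
  obtain ⟨F, h1, h2, h3⟩ := h
  obtain ⟨F', h1', h2', h3'⟩ := h'
  refine ⟨fun e z => F e z * F' e z, fun e z s => ?_, fun e z => ?_, fun z => ?_⟩
  · show F e _ * F' e _ = F e z * F' e z
    rw [h1, h1']
  · show |F e z * F' e z| ≤ 1
    rw [abs_mul]
    exact mul_le_one₀ (h2 e z) (abs_nonneg _) (h2' e z)
  · rw [Pi.mul_apply, h3, h3', prod_mul_distrib]

theorem cut_of [NeZero N] (h : (Fin r → ZMod N) → ℝ) (ε : ℝ)
    (hφ : ∀ φ ∈ DPhi r N, |av (fun z => h z * φ z)| ≤ ε) (j : Fin (r + 1)) :
    Cut j (fun x => h (Lx j x)) ε := by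
  classical
  intro u hu hu1
  rw [← av_equiv (EJ j), av_prod, av_comm]
  refine (abs_av_le (g := fun _ => ε) fun t => ?_).trans (le_of_eq (av_const ε))
  have h1 := hφ (fun z => ∏ i ∈ univ.erase j, u i (Function.update (pl z) j t)) ?_
  · refine le_trans (le_of_eq ?_) h1
    congr 1
    refine congrArg av (funext fun z => ?_)
    rw [EJ_apply]
    show h (Lx j (Function.update (pl z) j t)) * _ = _
    rw [Lx_upd, Lx_pl]
  · refine ⟨fun e z => if e.2 = j then u e.1 (Function.update (pl z) j t) else 1,
      fun e z s => ?_, fun e z => ?_, fun z => ?_⟩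
    · by_cases he : e.2 = j
      · simp only [if_pos he]
        by_cases he1 : e.1 = j
        · rw [he1, he, sub_self, smul_zero, add_zero]
        · have e1 : Function.update (pl (z + s • (bv e.1 - bv e.2))) j t =
              Function.update (Function.update (pl z) j t) e.1
                (pl (z + s • (bv e.1 - bv e.2)) e.1) := by
            funext k
            by_cases hk : k = e.1
            · subst hk
              rw [Function.update_self, Function.update_of_ne he1]
            · rw [Function.update_of_ne hk]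
              by_cases hk2 : k = j
              · subst hk2
                rw [Function.update_self, Function.update_self]
              · rw [Function.update_of_ne hk2, Function.update_of_ne hk2,
                  pl_add_smul z s e.1 e.2 k hk (by rw [he]; exact hk2)]
          rw [e1, hu e.1]
      · simp only [if_neg he]
    · show |if e.2 = j then u e.1 (Function.update (pl z) j t) else 1| ≤ 1
      split_ifs
      · exact hu1 _ _
      · rw [abs_one]
    · rw [← prod_filter]
      symm
      refine prod_bij' (fun e _ => e.1) (fun i _ => (i, j)) ?_ ?_ ?_ ?_ ?_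
      · intro e he
        rw [mem_filter, mem_offDiag] at he
        rw [mem_erase]
        exact ⟨fun h => he.1.2.2 (h.trans he.2.symm), mem_univ _⟩
      · intro i hi
        rw [mem_erase] at hi
        rw [mem_filter, mem_offDiag]
        exact ⟨⟨mem_univ _, mem_univ _, hi.1⟩, rfl⟩
      · intro e he
        rw [mem_filter] at he
        exact Prod.ext rfl he.2.symm
      · intro i _
        rfl
      · intro e _
        rfl

/-! ## The dual norm: iterated Cauchy-Schwarz -/

theorem pow_av_le {X : Type} [Fintype X] [Nonempty X] (f : X → ℝ) (n : ℕ) :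
    |av f| ^ (n + 1) ≤ av (fun x => |f x| ^ (n + 1)) := by
  have h1 : |av f| ≤ av (fun x => |f x|) := abs_av_le fun x => le_rfl
  refine (pow_le_pow_left₀ (abs_nonneg _) h1 _).trans ?_
  have hX : (0 : ℝ) < Fintype.card X := by exact_mod_cast Fintype.card_pos
  have h2 := pow_sum_div_card_le_sum_pow (s := (univ : Finset X)) (f := fun x => |f x|)
    (fun x _ => abs_nonneg _) n
  rw [card_univ] at h2
  unfold av
  rw [div_pow, div_le_div_iff₀ (by positivity) hX]
  rw [div_le_iff₀ (by positivity)] at h2
  calc (∑ x, |f x|) ^ (n + 1) * (Fintype.card X : ℝ) ≤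
      ((∑ x, |f x| ^ (n + 1)) * (Fintype.card X : ℝ) ^ n) * (Fintype.card X : ℝ) :=
        mul_le_mul_of_nonneg_right h2 hX.le
    _ = _ := by rw [pow_succ (Fintype.card X : ℝ) n]; ring

section CS

variable {G : Type} [AddCommGroup G] [Fintype G] [NeZero N] [Module (ZMod N) G]

theorem cs_one (v : G) (F₀ H : G → ℝ) (hF : ∀ z (s : ZMod N), F₀ (z + s • v) = F₀ z)
    (hF1 : ∀ z, |F₀ z| ≤ 1) :
    |av (fun z => F₀ z * H z)| ^ 2 ≤ av (fun s : ZMod N => av (fun z => H z * H (z + s • v))) := by
  obtain ⟨K, hK⟩ : ∃ K : G → ℝ, K = fun z => av (fun s : ZMod N => H (z + s • v)) := ⟨_, rfl⟩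
  have h1 : av (fun z => F₀ z * H z) = av (fun z => F₀ z * K z) := by
    have h2 : ∀ s : ZMod N, av (fun z => F₀ z * H (z + s • v)) = av (fun z => F₀ z * H z) := by
      intro s
      rw [← av_tr (fun z => F₀ z * H z) (s • v)]
      refine congrArg av (funext fun z => ?_)
      rw [hF]
    have h3 : av (fun s : ZMod N => av (fun z => F₀ z * H (z + s • v))) =
        av (fun z => F₀ z * H z) := by
      rw [show (fun s : ZMod N => av (fun z => F₀ z * H (z + s • v))) =
        fun _ => av (fun z => F₀ z * H z) from funext h2]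
      exact av_const _
    rw [← h3, av_comm]
    refine congrArg av (funext fun z => ?_)
    rw [av_mul, hK]
  have h4 : |av (fun z => F₀ z * K z)| ^ 2 ≤ av (fun z => K z ^ 2) := by
    refine (pow_av_le (fun z => F₀ z * K z) 1).trans (av_mono fun z => ?_)
    rw [abs_mul, mul_pow, ← sq_abs (K z)]
    refine (mul_le_mul_of_nonneg_right (pow_le_one₀ (abs_nonneg _) (hF1 z)) (by positivity)).trans ?_
    rw [one_mul]
  rw [h1]
  refine h4.trans (le_of_eq ?_)
  calc av (fun z => K z ^ 2) = av (fun z => av (fun s : ZMod N => av (fun s' : ZMod N =>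
        H (z + s • v) * H (z + s' • v)))) := by
        refine congrArg av (funext fun z => ?_)
        rw [hK]
        show av (fun s : ZMod N => H (z + s • v)) ^ 2 = _
        rw [pow_two, ← av_mul]
        refine congrArg av (funext fun s => ?_)
        rw [mul_comm, ← av_mul]
    _ = av (fun s : ZMod N => av (fun z => av (fun s' : ZMod N =>
        H (z + s • v) * H (z + s' • v)))) := av_comm _
    _ = av (fun s : ZMod N => av (fun s' : ZMod N => av (fun z =>
        H (z + s • v) * H (z + s' • v)))) := by
        refine congrArg av (funext fun s => av_comm _)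
    _ = av (fun s : ZMod N => av (fun t : ZMod N => av (fun z => H z * H (z + t • v)))) := by
        refine congrArg av (funext fun s => ?_)
        rw [← av_tr (fun s' : ZMod N => av (fun z => H (z + s • v) * H (z + s' • v))) s]
        refine congrArg av (funext fun t => ?_)
        rw [← av_tr (fun z => H z * H (z + t • v)) (s • v)]
        refine congrArg av (funext fun z => ?_)
        rw [add_smul, add_assoc z (s • v), add_comm (s • v)]
    _ = _ := av_const _

/-- iterated Cauchy-Schwarz -/
theorem cs_dual {ι : Type} [Fintype ι] [DecidableEq ι] (v : ι → G) (D : Finset ι) :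
    D.Nonempty → ∀ (h : G → ℝ) (F : ι → G → ℝ),
      (∀ e ∈ D, ∀ z (s : ZMod N), F e (z + s • v e) = F e z) →
      (∀ e ∈ D, ∀ z, |F e z| ≤ 1) →
      |av (fun z => h z * ∏ e ∈ D, F e z)| ^ (2 ^ D.card) ≤
        av (fun s : ι → ZMod N => av (fun z : G =>
          ∏ ω ∈ D.powerset, h (z + ∑ e ∈ ω, s e • v e))) := by
  induction D using Finset.induction_on with
  | empty =>
    intro h
    exact absurd rfl (nonempty_iff_ne_empty.1 h)
  | insert e₀ D he₀ ih =>
    intro _ h F hF hF1
    have h1 := cs_one (v e₀) (F e₀) (fun z => h z * ∏ e ∈ D, F e z)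
      (hF e₀ (mem_insert_self _ _)) (hF1 e₀ (mem_insert_self _ _))
    have e1 : (fun z => h z * ∏ e ∈ insert e₀ D, F e z) =
        fun z => F e₀ z * (h z * ∏ e ∈ D, F e z) := by
      funext z
      rw [prod_insert he₀]
      ring
    rw [e1, card_insert_of_notMem he₀, pow_succ', pow_mul]
    have e2 : (fun s : ZMod N => av (fun z => (h z * ∏ e ∈ D, F e z) *
        (h (z + s • v e₀) * ∏ e ∈ D, F e (z + s • v e₀)))) =
        fun s : ZMod N => av (fun z => (h z * h (z + s • v e₀)) *
          ∏ e ∈ D, (F e z * F e (z + s • v e₀))) := by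
      funext s
      refine congrArg av (funext fun z => ?_)
      rw [prod_mul_distrib]
      ring
    rw [e2] at h1
    -- the right hand side
    have e3 : av (fun s : ι → ZMod N => av (fun z : G =>
        ∏ ω ∈ (insert e₀ D).powerset, h (z + ∑ e ∈ ω, s e • v e))) =
        av (fun t : ZMod N => av (fun s : ι → ZMod N => av (fun z : G =>
          ∏ ω ∈ D.powerset, (h (z + ∑ e ∈ ω, s e • v e) *
            h (z + ∑ e ∈ ω, s e • v e + t • v e₀))))) := by
      rw [av_update _ e₀]
      refine congrArg av (funext fun t => congrArg av (funext fun s =>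
        congrArg av (funext fun z => ?_)))
      have e4 : ∀ ω ∈ D.powerset, ∑ e ∈ ω, Function.update s e₀ t e • v e =
          ∑ e ∈ ω, s e • v e := by
        intro ω hω
        refine sum_congr rfl fun e he => ?_
        rw [Function.update_of_ne]
        rintro rfl
        exact he₀ (mem_powerset.1 hω he)
      rw [powerset_insert, prod_union, prod_image, prod_mul_distrib]
      · congr 1
        · exact prod_congr rfl fun ω hω => by rw [e4 ω hω]
        · refine prod_congr rfl fun ω hω => ?_
          have hne : e₀ ∉ ω := fun hh => he₀ (mem_powerset.1 hω hh)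
          rw [sum_insert hne, e4 ω hω, Function.update_self, add_assoc, add_comm (t • v e₀)]
      · intro ω hω ω' hω' hh
        have h1 : e₀ ∉ ω := fun hh => he₀ (mem_powerset.1 hω hh)
        have h2 : e₀ ∉ ω' := fun hh => he₀ (mem_powerset.1 hω' hh)
        rw [← erase_insert h1, ← erase_insert h2, hh]
      · rw [disjoint_left]
        intro ω hω hω'
        obtain ⟨ω', _, rfl⟩ := mem_image.1 hω'
        exact he₀ (mem_powerset.1 hω (mem_insert_self _ _))
    rw [e3]
    by_cases hD : D = ∅
    · subst hD
      rw [card_empty, pow_zero, pow_one]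
      refine h1.trans (le_of_eq ?_)
      refine congrArg av (funext fun t => ?_)
      rw [powerset_empty]
      have e5 : (fun s : ι → ZMod N => av (fun z : G =>
          ∏ ω ∈ ({∅} : Finset (Finset ι)), (h (z + ∑ e ∈ ω, s e • v e) *
            h (z + ∑ e ∈ ω, s e • v e + t • v e₀)))) =
          fun _ => av (fun z => h z * h (z + t • v e₀)) := by
        funext s
        refine congrArg av (funext fun z => ?_)
        rw [prod_singleton, sum_empty, add_zero]
      rw [e5, av_const]
      refine congrArg av (funext fun z => ?_)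
      rw [prod_empty, mul_one]
    · have hD' : D.Nonempty := nonempty_iff_ne_empty.2 hD
      obtain ⟨n, hn⟩ : ∃ n, 2 ^ D.card = n + 1 :=
        ⟨2 ^ D.card - 1, by have : 0 < 2 ^ D.card := by positivity
                            omega⟩
      refine (pow_le_pow_left₀ (by positivity) (h1.trans (le_abs_self _)) _).trans ?_
      rw [hn]
      refine (pow_av_le _ n).trans (av_mono fun t => ?_)
      rw [← hn]
      have h5 := ih hD' (fun z => h z * h (z + t • v e₀)) (fun e z => F e z * F e (z + t • v e₀))
        (fun e he z s => by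
          have h6 := hF e (mem_insert_of_mem he)
          show F e (z + s • v e) * F e (z + s • v e + t • v e₀) = F e z * F e (z + t • v e₀)
          rw [h6, add_right_comm, h6])
        (fun e he z => by
          have h6 := hF1 e (mem_insert_of_mem he)
          show |F e z * F e (z + t • v e₀)| ≤ 1
          rw [abs_mul]
          exact mul_le_one₀ (h6 z) (abs_nonneg _) (h6 _))
      refine h5.trans (le_of_eq ?_)
      refine congrArg av (funext fun s => congrArg av (funext fun z => ?_))
      rfl

end CS

end Pool.Agent.Helper51.UD
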