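import Pool.Agent.Helper51.UD.Rel

/-!
# The relative Szemerédi theorem for simplices
-/

set_option autoImplicit false

open Finset

namespace Pool.Agent.Helper51.UD

open Pool.Agent.H602R3.DHJ (av av_const av_mono av_nonneg av_add av_sub av_mul av_sum av_equiv
  av_prod av_comm)
open Pool.Agent.Y727.PSP
open Pool.Agent.Y46.PSP (abs_av_le av_tr av_update)

/-- the pairs of vertices -/
abbrev Ed (r : ℕ) : Type := Fin (r + 1) × Fin (r + 1)

/-- the directions -/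
def dv {r N : ℕ} (e : Ed r) : Fin r → ZMod N := bv e.1 - bv e.2

/-- the directions which are used -/
def OD (r : ℕ) : Finset (Ed r) := (univ : Finset (Fin (r + 1))).offDiag

/-- the forms of the cubes -/
def cubeF {r N : ℕ} (ω : Finset (Ed r)) (y : (Ed r → ZMod N) × (Fin r → ZMod N)) :
    Fin r → ZMod N := y.2 + ∑ e ∈ ω, y.1 e • dv e

/-- the cube condition -/
def Cube (r N : ℕ) [NeZero N] (ν : (Fin r → ZMod N) → ℝ) (η : ℝ) : Prop :=
  ∀ S : Finset (Finset (Ed r)), (∀ ω ∈ S, ω ⊆ OD r) →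
    |av (fun y : (Ed r → ZMod N) × (Fin r → ZMod N) => ∏ ω ∈ S, ν (cubeF ω y)) - 1| ≤ η

theorem cube_prod {r N : ℕ} [NeZero N] (ν : (Fin r → ZMod N) → ℝ) (η : ℝ) (h : Cube r N ν η)
    (P : Finset (Finset (Ed r))) (hP : P.Nonempty) (hP' : ∀ ω ∈ P, ω ⊆ OD r) :
    |av (fun y : (Ed r → ZMod N) × (Fin r → ZMod N) => ∏ ω ∈ P, (ν (cubeF ω y) - 1))| ≤
      2 ^ P.card * η := by
  classical
  have h1 : (fun y : (Ed r → ZMod N) × (Fin r → ZMod N) => ∏ ω ∈ P, (ν (cubeF ω y) - 1)) =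
      fun y => ∑ S ∈ P.powerset, (∏ ω ∈ P \ S, (-1 : ℝ)) * ∏ ω ∈ S, ν (cubeF ω y) := by
    funext y
    simp_rw [sub_eq_add_neg]
    rw [prod_add]
    exact sum_congr rfl fun S _ => mul_comm _ _
  have h2 : ∑ S ∈ P.powerset, (∏ ω ∈ P \ S, (-1 : ℝ)) = 0 := by
    have h3 := prod_add (fun _ : Finset (Ed r) => (1 : ℝ)) (fun _ => (-1 : ℝ)) P
    simp only [prod_const_one, one_mul] at h3
    rw [← h3]
    obtain ⟨ω, hω⟩ := hP
    exact prod_eq_zero hω (by norm_num)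
  have h4 : av (fun y : (Ed r → ZMod N) × (Fin r → ZMod N) => ∏ ω ∈ P, (ν (cubeF ω y) - 1)) =
      ∑ S ∈ P.powerset, (∏ ω ∈ P \ S, (-1 : ℝ)) *
        (av (fun y : (Ed r → ZMod N) × (Fin r → ZMod N) => ∏ ω ∈ S, ν (cubeF ω y)) - 1) := by
    rw [h1, av_sum]
    simp_rw [mul_sub, mul_one]
    rw [sum_sub_distrib, h2, sub_zero]
    exact sum_congr rfl fun S _ => av_mul _ _
  rw [h4]
  refine (abs_sum_le_sum_abs _ _).trans ?_
  calc ∑ S ∈ P.powerset, |(∏ ω ∈ P \ S, (-1 : ℝ)) *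
        (av (fun y : (Ed r → ZMod N) × (Fin r → ZMod N) => ∏ ω ∈ S, ν (cubeF ω y)) - 1)|
      ≤ ∑ S ∈ P.powerset, η := by
        refine sum_le_sum fun S hS => ?_
        rw [abs_mul, abs_prod]
        have e1 : ∏ ω ∈ P \ S, |(-1 : ℝ)| = 1 := prod_eq_one fun _ _ => by simp
        rw [e1, one_mul]
        exact h S fun ω hω => hP' ω (mem_powerset.1 hS hω)
    _ = 2 ^ P.card * η := by
        rw [sum_const, card_powerset, nsmul_eq_mul]
        push_cast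
        rfl

theorem OD_ne {r : ℕ} (hr : 1 ≤ r) : (OD r).Nonempty := by
  refine ⟨(0, ⟨1, by omega⟩), ?_⟩
  rw [OD, mem_offDiag]
  refine ⟨mem_univ _, mem_univ _, fun h => ?_⟩
  have := congrArg Fin.val h
  simp at this

theorem dual_small {r N : ℕ} [NeZero N] (hr : 1 ≤ r) (ν : (Fin r → ZMod N) → ℝ) (η : ℝ)
    (h : Cube r N ν η) (φ : (Fin r → ZMod N) → ℝ) (hφ : φ ∈ DPhi r N) :
    |av (fun z => (ν z - 1) * φ z)| ^ (2 ^ (OD r).card) ≤ 2 ^ (2 ^ (OD r).card) * η := by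
  classical
  obtain ⟨F, h1, h2, h3⟩ := hφ
  have h4 := cs_dual (N := N) (fun e : Ed r => (dv e : Fin r → ZMod N)) (OD r) (OD_ne hr)
    (fun z => ν z - 1) F (fun e _ => h1 e) (fun e _ => h2 e)
  have h5 : (fun z => (ν z - 1) * φ z) = fun z => (ν z - 1) * ∏ e ∈ OD r, F e z := by
    funext z
    rw [h3]
    rfl
  rw [h5]
  refine h4.trans ?_
  have h6 := cube_prod ν η h (OD r).powerset ⟨∅, empty_mem_powerset _⟩
    (fun ω hω => mem_powerset.1 hω)
  rw [card_powerset, av_prod] at h6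
  exact (le_abs_self _).trans h6

/-- the coordinates `(p, d)` -/
def EP (r N : ℕ) : (Fin (r + 1) → ZMod N) ≃ (Fin r → ZMod N) × ZMod N where
  toFun x := (fun l => x l.succ, -∑ i, x i)
  invFun p := Fin.cons (-p.2 - ∑ l, p.1 l) p.1
  left_inv x := by
    funext i
    induction i using Fin.cases with
    | zero =>
      show -(-∑ i, x i) - ∑ l : Fin r, x l.succ = x 0
      rw [Fin.sum_univ_succ x]
      ring
    | succ l => rfl
  right_inv p := by
    refine Prod.ext ?_ ?_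
    · funext l
      rfl
    · show -∑ i, (Fin.cons (-p.2 - ∑ l, p.1 l) p.1 : Fin (r + 1) → ZMod N) i = p.2
      rw [Fin.sum_univ_succ]
      simp

theorem av_EP (r N : ℕ) [NeZero N] (f : (Fin r → ZMod N) → ℝ) :
    av (fun x : Fin (r + 1) → ZMod N => ∏ j, f (Lx j x)) =
      av (fun p : (Fin r → ZMod N) × ZMod N => ∏ a : Fin (r + 1), f (p.1 + p.2 • bv a)) := by
  rw [← av_equiv (EP r N)]
  refine congrArg av (funext fun x => prod_congr rfl fun j _ => ?_)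
  congr 1
  show (fun l => x l.succ) - (∑ i, x i) • bv j = (fun l => x l.succ) + (-∑ i, x i) • bv j
  rw [neg_smul, sub_eq_add_neg]

/-- the relative Szemerédi theorem for simplices -/
theorem rsx (r : ℕ) (hr : 1 ≤ r) (δ : ℝ) (hδ : 0 < δ) : ∃ c η : ℝ, 0 < c ∧ 0 < η ∧
    ∀ (N : ℕ) [NeZero N] (ν f : (Fin r → ZMod N) → ℝ), (∀ a, 0 ≤ f a ∧ f a ≤ ν a) →
      LF (fun (j : Fin (r + 1)) (x : Fin (r + 1) → ZMod N) => ν (Lx j x)) η → Cube r N ν η →
      δ ≤ av f → c ≤ av (fun x : Fin (r + 1) → ZMod N => ∏ j, f (Lx j x)) := by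
  classical
  have hSLF := Pool.Agent.Y317.PSP.slf Pool.Agent.Y674.PSP.cs
  obtain ⟨c0, hc0, hV⟩ := var_mod r (δ / 2) (by positivity)
  obtain ⟨η1, hη1, hC⟩ := Pool.Agent.Y814.PSP.cnt hSLF (Fin (r + 1)) (c0 / 2) (by positivity)
  obtain ⟨ε', hε', hD⟩ := Pool.Agent.Y500.PSP.DMT (min η1 (δ / 2)) (by positivity)
  obtain ⟨m, hm⟩ : ∃ m, m = 2 ^ (OD r).card := ⟨_, rfl⟩
  have hm0 : m ≠ 0 := by rw [hm]; positivity
  refine ⟨c0 / 2, min η1 (ε' ^ m / 2 ^ m), by positivity, by positivity, ?_⟩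
  intro N _ ν f hf hLF hCu hδf
  have hLF1 : LF (fun (j : Fin (r + 1)) (x : Fin (r + 1) → ZMod N) => ν (Lx j x)) η1 :=
    fun T hT => (hLF T hT).trans (min_le_left _ _)
  have h2 : ∀ φ ∈ DPhi r N, |av (fun a => (ν a - 1) * φ a)| ≤ ε' := by
    intro φ hφ
    have h3 := dual_small hr ν _ hCu φ hφ
    rw [← hm] at h3
    have h4 : (2 : ℝ) ^ m * min η1 (ε' ^ m / 2 ^ m) ≤ ε' ^ m := by
      calc (2 : ℝ) ^ m * min η1 (ε' ^ m / 2 ^ m) ≤ 2 ^ m * (ε' ^ m / 2 ^ m) :=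
            mul_le_mul_of_nonneg_left (min_le_right _ _) (by positivity)
        _ = ε' ^ m := by field_simp
    exact le_of_pow_le_pow_left₀ hm0 hε'.le (h3.trans h4)
  obtain ⟨g, hg, hg2⟩ := hD (Fin r → ZMod N) (DPhi r N) (fun φ hφ a => DPhi_le hφ a) DPhi_one
    (fun φ hφ => DPhi_neg hr hφ) (fun φ hφ ψ hψ => subset_convexHull ℝ _ (DPhi_mul hφ hψ))
    ν f hf h2
  have h3 : ∀ j : Fin (r + 1), Cut j (fun x => f (Lx j x) - g (Lx j x)) (min η1 (δ / 2)) :=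
    cut_of (fun a => f a - g a) _ hg2
  have h4 : δ / 2 ≤ av g := by
    have h5 := hg2 _ DPhi_one
    simp only [mul_one] at h5
    rw [av_sub] at h5
    have h6 := (abs_le.1 h5).2
    have h7 := min_le_right η1 (δ / 2)
    linarith
  have h5 := hV N (Fin r → ZMod N) (fun a => bv a) g hg h4
  have h6 := hC (ZMod N) (fun j x => ν (Lx j x)) (fun j x => f (Lx j x)) (fun j x => g (Lx j x))
    (fun j => Ind_Lx j ν) (fun j => Ind_Lx j f) (fun j => Ind_Lx j g) hLF1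
    (fun j x => hf _) (fun j x => hg _)
    (fun j u hu hu1 => (h3 j u hu hu1).trans (min_le_left _ _))
  rw [av_EP r N g] at h6
  have h7 := (abs_le.1 h6).1
  linarith

end Pool.Agent.Helper51.UD
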