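import Pool.Agent.Helper51.UD.Worlds

/-!
# The systems of forms and the pseudorandomness of most worlds
-/

set_option autoImplicit false

open Finset

namespace Pool.Agent.Helper51.UD

open Pool.Agent.H602R3.DHJ (av av_const av_mono av_nonneg av_add av_sub av_mul av_sum av_equiv
  av_prod av_comm)
open Pool.Agent.Y727.PSP
open Pool.Agent.Y46.PSP (abs_av_le av_tr av_update)

variable {r N : ℕ}

/-- the vertices of the integral simplex -/
def bz (j : Fin (r + 1)) : Fin r → ℤ := fun l => if j = l.succ then 1 else 0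

theorem sum_bz (β : Fin r → ℤ) (j : Fin (r + 1)) :
    ∑ l, β l * bz j l = (Fin.cons 0 β : Fin (r + 1) → ℤ) j := by
  refine Fin.cases ?_ (fun m => ?_) j
  · rw [Fin.cons_zero]
    refine sum_eq_zero fun l _ => ?_
    rw [bz, if_neg (Fin.succ_ne_zero l).symm, mul_zero]
  · rw [Fin.cons_succ, sum_eq_single m]
    · rw [bz, if_pos rfl, mul_one]
    · intro l _ hl
      rw [bz, if_neg (fun h => hl (Fin.succ_injective _ h).symm), mul_zero]
    · intro h
      exact absurd (mem_univ m) h

theorem sum_bz_sub (β : Fin r → ℤ) (i j : Fin (r + 1)) :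
    ∑ l, β l * (bz i l - bz j l) =
      (Fin.cons 0 β : Fin (r + 1) → ℤ) i - (Fin.cons 0 β : Fin (r + 1) → ℤ) j := by
  rw [← sum_bz, ← sum_bz, ← sum_sub_distrib]
  exact sum_congr rfl fun l _ => mul_sub _ _ _

theorem bz_sub_abs (i j : Fin (r + 1)) (l : Fin r) : |bz i l - bz j l| ≤ 1 := by
  unfold bz
  split_ifs <;> norm_num

theorem Lx_single (i j : Fin (r + 1)) (h : ZMod N) (l : Fin r) :
    Lx j (Pi.single i h) l = ((bz i l - bz j l : ℤ) : ZMod N) * h := by
  rw [Lx_apply, sum_pi_single' i h univ, if_pos (mem_univ i)]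
  unfold bz
  by_cases h1 : i = l.succ
  · subst h1
    rw [Pi.single_eq_same, if_pos rfl]
    split_ifs <;> simp
  · rw [Pi.single_eq_of_ne (Ne.symm h1), if_neg h1]
    split_ifs <;> simp

/-- the forms of the linear forms condition -/
def frmH (t : Fin (r + 1) × Finset (Fin (r + 1))) :
    (Fin (r + 1) → ZMod N × ZMod N) →+ (Fin r → ZMod N) :=
  AddMonoidHom.mk' (fun y => Lx t.1 (sl t.2 y)) (by
    intro y y'
    funext l
    have h1 : ∀ i, sl t.2 (y + y') i = sl t.2 y i + sl t.2 y' i := by
      intro i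
      unfold sl
      split_ifs <;> rfl
    simp only [Pi.add_apply, Lx_apply, h1, sum_add_distrib]
    split_ifs <;> ring)

theorem frmH_apply (t : Fin (r + 1) × Finset (Fin (r + 1))) (y : Fin (r + 1) → ZMod N × ZMod N) :
    frmH t y = Lx t.1 (sl t.2 y) := rfl

/-- the moves -/
def tauH (i : Fin (r + 1)) (b : Bool) : ZMod N →+ (Fin (r + 1) → ZMod N × ZMod N) :=
  (AddMonoidHom.single (fun _ => ZMod N × ZMod N) i).comp
    (if b then AddMonoidHom.inr _ _ else AddMonoidHom.inl _ _)

theorem sl_tauH (ω : Finset (Fin (r + 1))) (i : Fin (r + 1)) (b : Bool) (h : ZMod N) :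
    sl ω (tauH i b h) = Pi.single i (if (i ∈ ω ↔ b = true) then h else 0) := by
  funext l
  unfold sl tauH
  by_cases hl : l = i
  · subst hl
    cases b <;> by_cases hω : l ∈ ω <;> simp [hω]
  · rw [Pi.single_eq_of_ne hl]
    cases b <;> by_cases hω : l ∈ ω <;> simp [hω, hl]

theorem mvH (t : Fin (r + 1) × Finset (Fin (r + 1))) (i : Fin (r + 1)) (b : Bool) :
    Mv (frmH (N := N) t) (tauH i b) (if (i ∈ t.2 ↔ b = true) then bz i - bz t.1 else 0) := by
  constructor
  · intro l
    split_ifs
    · exact bz_sub_abs _ _ _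
    · simp
  · intro h l
    rw [frmH_apply, sl_tauH, Lx_single]
    split_ifs
    · simp
    · simp

theorem goodH (β : Fin r → ℤ) (hr : 1 ≤ r)
    (hβ : Function.Injective (Fin.cons 0 β : Fin (r + 1) → ℤ))
    (T : Finset (Fin (r + 1) × Finset (Fin (r + 1)))) (hT : ∀ t ∈ T, t.1 ∉ t.2) :
    GoodSys β (fun t : T => frmH (N := N) (t : Fin (r + 1) × Finset (Fin (r + 1)))) := by
  constructor
  · rintro ⟨t, ht⟩ ⟨t', ht'⟩ hne
    have h1 := hT t ht
    have h2 := hT t' ht'
    have hne' : t ≠ t' := fun h => hne (Subtype.ext h)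
    by_cases hω : t.2 = t'.2
    · have hj : t.1 ≠ t'.1 := fun h => hne' (Prod.ext h hω)
      refine ⟨tauH t.1 false, _, _, mvH t t.1 false, mvH t' t.1 false, ?_⟩
      rw [if_pos (by simp [h1]), if_pos (by rw [← hω]; simp [h1])]
      have e1 : ∀ l, β l * ((bz t.1 - bz t.1 : Fin r → ℤ) l - (bz t.1 - bz t'.1 : Fin r → ℤ) l) =
          β l * (bz t'.1 l - bz t.1 l) := by
        intro l
        simp only [Pi.sub_apply]
        ring
      rw [sum_congr rfl fun l _ => e1 l, sum_bz_sub]
      intro h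
      exact hj (hβ (by linarith))
    · obtain ⟨i, hi⟩ : ∃ i, ¬ (i ∈ t.2 ↔ i ∈ t'.2) := by
        by_contra hcon
        push Not at hcon
        exact hω (Finset.ext hcon)
      refine ⟨tauH i true, _, _, mvH t i true, mvH t' i true, ?_⟩
      by_cases hi1 : i ∈ t.2
      · have hi2 : i ∉ t'.2 := fun h => hi ⟨fun _ => h, fun _ => hi1⟩
        rw [if_pos (by simp [hi1]), if_neg (by simp [hi2])]
        have e1 : ∀ l, β l * ((bz i - bz t.1 : Fin r → ℤ) l - (0 : Fin r → ℤ) l) =
            β l * (bz i l - bz t.1 l) := by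
          intro l
          simp only [Pi.sub_apply, Pi.zero_apply]
          ring
        rw [sum_congr rfl fun l _ => e1 l, sum_bz_sub]
        intro h
        have := hβ (sub_eq_zero.1 h)
        exact h1 (this ▸ hi1)
      · have hi2 : i ∈ t'.2 := by
          by_contra h
          exact hi ⟨fun h' => absurd h' hi1, fun h' => absurd h' h⟩
        rw [if_neg (by simp [hi1]), if_pos (by simp [hi2])]
        have e1 : ∀ l, β l * ((0 : Fin r → ℤ) l - (bz i - bz t'.1 : Fin r → ℤ) l) =
            β l * (bz t'.1 l - bz i l) := by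
          intro l
          simp only [Pi.sub_apply, Pi.zero_apply]
          ring
        rw [sum_congr rfl fun l _ => e1 l, sum_bz_sub]
        intro h
        have := hβ (sub_eq_zero.1 h)
        exact h2 (this.symm ▸ hi2)
  · rintro ⟨t, ht⟩
    have : Nontrivial (Fin (r + 1)) := Fin.nontrivial_iff_two_le.2 (by omega)
    obtain ⟨i, hi⟩ := exists_ne t.1
    refine ⟨tauH i (decide (i ∈ t.2)), _, mvH t i _, ?_⟩
    rw [if_pos (by simp)]
    have e1 : ∀ l, β l * (bz i - bz t.1 : Fin r → ℤ) l = β l * (bz i l - bz t.1 l) := fun l => rfl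
    rw [sum_congr rfl fun l _ => e1 l, sum_bz_sub]
    intro h
    exact hi (hβ (sub_eq_zero.1 h))

/-- the forms of the cube condition -/
def frmC (ω : Finset (Ed r)) : (Ed r → ZMod N) × (Fin r → ZMod N) →+ (Fin r → ZMod N) :=
  AddMonoidHom.mk' (fun y => cubeF ω y) (by
    intro y y'
    unfold cubeF
    simp only [Prod.fst_add, Prod.snd_add, Pi.add_apply, add_smul, sum_add_distrib]
    abel)

theorem frmC_apply (ω : Finset (Ed r)) (y : (Ed r → ZMod N) × (Fin r → ZMod N)) :
    frmC ω y = cubeF ω y := rfl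

theorem bv_bz (j : Fin (r + 1)) (l : Fin r) : (bv j l : ZMod N) = (bz j l : ℤ) := by
  unfold bv bz
  split_ifs <;> simp

theorem mvC (ω : Finset (Ed r)) (e : Ed r) :
    Mv (frmC (N := N) ω) ((AddMonoidHom.inl _ _).comp (AddMonoidHom.single (fun _ => ZMod N) e))
      (if e ∈ ω then bz e.1 - bz e.2 else 0) := by
  classical
  constructor
  · intro l
    split_ifs
    · exact bz_sub_abs _ _ _
    · simp
  · intro h l
    rw [frmC_apply]
    have h1 : cubeF ω (((AddMonoidHom.inl (Ed r → ZMod N) (Fin r → ZMod N)).comp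
        (AddMonoidHom.single (fun _ => ZMod N) e)) h) = if e ∈ ω then h • dv e else 0 := by
      unfold cubeF
      simp only [AddMonoidHom.coe_comp, Function.comp_apply, AddMonoidHom.inl_apply,
        AddMonoidHom.single_apply, zero_add]
      split_ifs with he
      · rw [sum_eq_single e]
        · rw [Pi.single_eq_same]
        · intro b _ hb
          rw [Pi.single_eq_of_ne hb, zero_smul]
        · intro h'
          exact absurd he h'
      · refine sum_eq_zero fun b hb => ?_
        have hbe : b ≠ e := by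
          rintro rfl
          exact he hb
        rw [Pi.single_eq_of_ne hbe, zero_smul]
    rw [h1]
    split_ifs
    · rw [Pi.smul_apply, dv, Pi.sub_apply, bv_bz, bv_bz, smul_eq_mul, mul_comm]
      simp
    · simp

theorem mvZ (ω : Finset (Ed r)) (l₀ : Fin r) :
    Mv (frmC (N := N) ω) ((AddMonoidHom.inr _ _).comp (AddMonoidHom.single (fun _ => ZMod N) l₀))
      (bz l₀.succ) := by
  classical
  constructor
  · intro l
    unfold bz
    split_ifs <;> norm_num
  · intro h l
    rw [frmC_apply]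
    unfold cubeF bz
    simp only [AddMonoidHom.coe_comp, Function.comp_apply, AddMonoidHom.inr_apply,
      AddMonoidHom.single_apply, Pi.zero_apply, zero_smul, sum_const_zero, add_zero]
    by_cases hl : l₀ = l
    · subst hl
      simp
    · rw [Pi.single_eq_of_ne (Ne.symm hl), if_neg (fun h' => hl (Fin.succ_injective _ h'))]
      simp

theorem mvI (l₀ : Fin r) :
    Mv (AddMonoidHom.id (Fin r → ZMod N)) (AddMonoidHom.single (fun _ => ZMod N) l₀)
      (bz l₀.succ) := by
  classical
  constructor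
  · intro l
    unfold bz
    split_ifs <;> norm_num
  · intro h l
    unfold bz
    simp only [AddMonoidHom.id_apply, AddMonoidHom.single_apply]
    by_cases hl : l₀ = l
    · subst hl
      simp
    · rw [Pi.single_eq_of_ne (Ne.symm hl), if_neg (fun h' => hl (Fin.succ_injective _ h'))]
      simp

theorem bz_succ_ne (β : Fin r → ℤ) (hβ : Function.Injective (Fin.cons 0 β : Fin (r + 1) → ℤ))
    (l₀ : Fin r) : ∑ l, β l * bz l₀.succ l ≠ 0 := by
  rw [sum_bz]
  intro h
  have : (Fin.cons 0 β : Fin (r + 1) → ℤ) l₀.succ = (Fin.cons 0 β : Fin (r + 1) → ℤ) 0 := by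
    rw [h, Fin.cons_zero]
  exact Fin.succ_ne_zero l₀ (hβ this)

theorem goodC (β : Fin r → ℤ) (hr : 1 ≤ r)
    (hβ : Function.Injective (Fin.cons 0 β : Fin (r + 1) → ℤ))
    (P : Finset (Finset (Ed r))) (hP : ∀ ω ∈ P, ω ⊆ OD r) :
    GoodSys β (fun ω : P => frmC (N := N) (ω : Finset (Ed r))) := by
  constructor
  · rintro ⟨ω, hω⟩ ⟨ω', hω'⟩ hne
    have hne' : ω ≠ ω' := fun h => hne (Subtype.ext h)
    obtain ⟨e, he⟩ : ∃ e, ¬ (e ∈ ω ↔ e ∈ ω') := by
      by_contra hcon
      push Not at hcon
      exact hne' (Finset.ext hcon)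
    refine ⟨_, _, _, mvC ω e, mvC ω' e, ?_⟩
    by_cases h1 : e ∈ ω
    · have h2 : e ∉ ω' := fun h => he ⟨fun _ => h, fun _ => h1⟩
      rw [if_pos h1, if_neg h2]
      have h3 := hP ω hω h1
      unfold OD at h3
      rw [mem_offDiag] at h3
      have e1 : ∀ l, β l * ((bz e.1 - bz e.2 : Fin r → ℤ) l - (0 : Fin r → ℤ) l) =
          β l * (bz e.1 l - bz e.2 l) := by
        intro l
        simp only [Pi.sub_apply, Pi.zero_apply]
        ring
      rw [sum_congr rfl fun l _ => e1 l, sum_bz_sub]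
      intro h
      exact h3.2.2 (hβ (sub_eq_zero.1 h))
    · have h2 : e ∈ ω' := by
        by_contra h
        exact he ⟨fun h' => absurd h' h1, fun h' => absurd h' h⟩
      rw [if_neg h1, if_pos h2]
      have h3 := hP ω' hω' h2
      unfold OD at h3
      rw [mem_offDiag] at h3
      have e1 : ∀ l, β l * ((0 : Fin r → ℤ) l - (bz e.1 - bz e.2 : Fin r → ℤ) l) =
          β l * (bz e.2 l - bz e.1 l) := by
        intro l
        simp only [Pi.sub_apply, Pi.zero_apply]
        ring
      rw [sum_congr rfl fun l _ => e1 l, sum_bz_sub]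
      intro h
      exact h3.2.2 (hβ (sub_eq_zero.1 h)).symm
  · rintro ⟨ω, hω⟩
    exact ⟨_, _, mvZ ω ⟨0, by omega⟩, bz_succ_ne β hβ _⟩

theorem goodI (β : Fin r → ℤ) (hr : 1 ≤ r)
    (hβ : Function.Injective (Fin.cons 0 β : Fin (r + 1) → ℤ)) :
    GoodSys β (fun _ : Unit => AddMonoidHom.id (Fin r → ZMod N)) := by
  constructor
  · intro i j hij
    exact absurd (Subsingleton.elim i j) hij
  · intro _
    exact ⟨_, _, mvI ⟨0, by omega⟩, bz_succ_ne β hβ _⟩

end Pool.Agent.Helper51.UD
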