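import Pool.Agent.Helper51.UD.Rs

/-!
# The pseudorandomness conditions for most worlds

`F K`, `K ∈ S`, is a family of weights on `(ℤ/N)^r` whose moments are as expected on average over
`K`, for all systems of points at which the integral linear form `rho β` has different values.
-/

set_option autoImplicit false

open Finset

namespace Pool.Agent.Helper51.UD

open Pool.Agent.H602R3.DHJ (av av_const av_mono av_nonneg av_add av_sub av_mul av_sum av_equiv
  av_prod av_comm)
open Pool.Agent.Y727.PSP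
open Pool.Agent.Y46.PSP (abs_av_le av_tr av_update)

variable {r N : ℕ}

/-- the integral linear form with the coefficients `β` at the least residues -/
def rho (β : Fin r → ℤ) (z : Fin r → ZMod N) : ℤ := ∑ l, β l * ((z l).val : ℤ)

/-- a family of weights with the expected moments -/
structure MajB {Ω : Type} (β : Fin r → ℤ) (S : Finset Ω) (F : Ω → (Fin r → ZMod N) → ℝ)
    (M : ℕ) (η L : ℝ) : Prop where
  nonneg : ∀ K a, 0 ≤ F K a
  maj : ∀ (I : Type) [Fintype I], Fintype.card I ≤ M → ∀ a : I → (Fin r → ZMod N),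
    Function.Injective (fun i => rho β (a i)) → |(∑ K ∈ S, ∏ i, F K (a i)) / S.card - 1| ≤ η
  bound : ∀ (I : Type) [Fintype I], Fintype.card I ≤ M → ∀ a : I → (Fin r → ZMod N),
    ∀ K ∈ S, ∏ i, F K (a i) ≤ L

/-! ## Counting the coincidences -/

/-- the carry -/
theorem carry [NeZero N] (A h : ZMod N) (p : ℤ) (hp : |p| ≤ 1) :
    ∃ c ∈ Icc (-1 : ℤ) 1, ((A + (p : ZMod N) * h).val : ℤ) = (A.val : ℤ) + p * h.val + N * c := by
  have hN : (0 : ℤ) < N := by exact_mod_cast Nat.pos_of_ne_zero (NeZero.ne N)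
  have h1 : (N : ℤ) ∣ ((A + (p : ZMod N) * h).val : ℤ) - ((A.val : ℤ) + p * h.val) := by
    rw [← ZMod.intCast_zmod_eq_zero_iff_dvd]
    push_cast
    rw [ZMod.natCast_zmod_val, ZMod.natCast_zmod_val, ZMod.natCast_zmod_val, sub_self]
  obtain ⟨c, hc⟩ := h1
  have a1 : ((A + (p : ZMod N) * h).val : ℤ) < N := by exact_mod_cast ZMod.val_lt _
  have a2 : (A.val : ℤ) < N := by exact_mod_cast ZMod.val_lt _
  have a3 : (h.val : ℤ) < N := by exact_mod_cast ZMod.val_lt _
  have b1 : (0 : ℤ) ≤ ((A + (p : ZMod N) * h).val : ℤ) := by positivity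
  have b2 : (0 : ℤ) ≤ (A.val : ℤ) := by positivity
  have b3 : (0 : ℤ) ≤ (h.val : ℤ) := by positivity
  refine ⟨c, ?_, by linarith⟩
  have hp' := abs_le.1 hp
  have c1 : p * (h.val : ℤ) ≤ h.val := by nlinarith
  have c2 : -(h.val : ℤ) ≤ p * (h.val : ℤ) := by nlinarith
  rw [mem_Icc]
  constructor
  · by_contra hcon
    push Not at hcon
    have : c ≤ -2 := by omega
    nlinarith
  · by_contra hcon
    push Not at hcon
    have : 2 ≤ c := by omega
    nlinarith

/-- `f` moves with the coordinate `τ` in the direction `p` -/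
structure Mv {Y : Type} [AddCommGroup Y] (f : Y →+ (Fin r → ZMod N)) (τ : ZMod N →+ Y)
    (p : Fin r → ℤ) : Prop where
  small : ∀ l, |p l| ≤ 1
  eq : ∀ h l, f (τ h) l = (p l : ZMod N) * h

theorem count_line [NeZero N] (β : Fin r → ℤ) (A B : Fin r → ZMod N) (p q : Fin r → ℤ)
    (hp : ∀ l, |p l| ≤ 1) (hq : ∀ l, |q l| ≤ 1) (hne : ∑ l, β l * (p l - q l) ≠ 0) :
    (univ.filter (fun h : ZMod N => rho β (fun l => A l + (p l : ZMod N) * h) =
      rho β (fun l => B l + (q l : ZMod N) * h))).card ≤ 9 ^ r := by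
  classical
  choose c hc hc' using fun (h : ZMod N) (l : Fin r) => carry (A l) h (p l) (hp l)
  choose d hd hd' using fun (h : ZMod N) (l : Fin r) => carry (B l) h (q l) (hq l)
  have hcard : (Fintype.piFinset (fun _ : Fin r => Icc (-1 : ℤ) 1) ×ˢ
      Fintype.piFinset (fun _ : Fin r => Icc (-1 : ℤ) 1)).card = 9 ^ r := by
    rw [card_product, Fintype.card_piFinset]
    simp only [Int.card_Icc, prod_const, card_univ, Fintype.card_fin]
    norm_num
    rw [← mul_pow]
    rfl
  rw [← hcard]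
  refine card_le_card_of_injOn (fun h => (c h, d h)) ?_ ?_
  · intro h _
    rw [mem_coe, mem_product, Fintype.mem_piFinset, Fintype.mem_piFinset]
    exact ⟨hc h, hd h⟩
  · intro h hh h' hh' heq
    rw [mem_coe, mem_filter] at hh hh'
    have e1 : c h = c h' := congrArg Prod.fst heq
    have e2 : d h = d h' := congrArg Prod.snd heq
    have key : ∀ h : ZMod N, rho β (fun l => A l + (p l : ZMod N) * h) -
        rho β (fun l => B l + (q l : ZMod N) * h) =
        (∑ l, β l * ((A l).val - (B l).val + N * (c h l - d h l))) +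
          (∑ l, β l * (p l - q l)) * h.val := by
      intro h
      unfold rho
      rw [sum_mul, ← sum_sub_distrib, ← sum_add_distrib]
      refine sum_congr rfl fun l _ => ?_
      simp only
      rw [hc', hd']
      ring
    have k1 := key h
    have k2 := key h'
    rw [hh.2, sub_self, e1, e2] at k1
    rw [hh'.2, sub_self] at k2
    have k3 : (∑ l, β l * (p l - q l)) * ((h.val : ℤ) - h'.val) = 0 := by
      rw [mul_sub]
      linarith
    rcases mul_eq_zero.1 k3 with k | k
    · exact absurd k hne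
    · have : h.val = h'.val := by
        have : (h.val : ℤ) = h'.val := by linarith
        exact_mod_cast this
      exact ZMod.val_injective N this

theorem pair_bad [NeZero N] {Y : Type} [AddCommGroup Y] [Fintype Y] (β : Fin r → ℤ)
    (f g : Y →+ (Fin r → ZMod N)) (τ : ZMod N →+ Y) (p q : Fin r → ℤ) (hf : Mv f τ p)
    (hg : Mv g τ q) (hne : ∑ l, β l * (p l - q l) ≠ 0) :
    (univ.filter (fun y : Y => rho β (f y) = rho β (g y))).card * N ≤ 9 ^ r * Fintype.card Y := by
  classical
  have h1 : ∀ h : ZMod N, (univ.filter (fun y : Y => rho β (f (y + τ h)) =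
      rho β (g (y + τ h)))).card = (univ.filter (fun y : Y => rho β (f y) = rho β (g y))).card := by
    intro h
    refine card_bij (fun y _ => y + τ h) ?_ ?_ ?_
    · intro y hy
      rw [mem_filter] at hy ⊢
      exact ⟨mem_univ _, hy.2⟩
    · intro y _ y' _ h
      exact add_right_cancel h
    · intro y hy
      refine ⟨y - τ h, ?_, by abel⟩
      rw [mem_filter] at hy ⊢
      rw [sub_add_cancel]
      exact ⟨mem_univ _, hy.2⟩
  have h2 : ∑ h : ZMod N, (univ.filter (fun y : Y => rho β (f (y + τ h)) =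
      rho β (g (y + τ h)))).card =
      ∑ y : Y, (univ.filter (fun h : ZMod N => rho β (f (y + τ h)) =
        rho β (g (y + τ h)))).card := by
    simp only [card_filter]
    exact sum_comm
  rw [sum_congr rfl fun h _ => h1 h, sum_const, card_univ, ZMod.card, smul_eq_mul] at h2
  rw [mul_comm, h2]
  calc ∑ y : Y, (univ.filter (fun h : ZMod N => rho β (f (y + τ h)) =
        rho β (g (y + τ h)))).card ≤ ∑ _y : Y, 9 ^ r := by
        refine sum_le_sum fun y _ => ?_
        refine le_trans (le_of_eq ?_) (count_line β (f y) (g y) p q hf.small hg.small hne)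
        congr 1
        ext h
        rw [mem_filter, mem_filter]
        have e1 : f (y + τ h) = fun l => f y l + (p l : ZMod N) * h := by
          funext l
          rw [map_add, Pi.add_apply, hf.eq]
        have e2 : g (y + τ h) = fun l => g y l + (q l : ZMod N) * h := by
          funext l
          rw [map_add, Pi.add_apply, hg.eq]
        rw [e1, e2]
    _ = 9 ^ r * Fintype.card Y := by rw [sum_const, card_univ, smul_eq_mul, mul_comm]

/-! ## Good systems of forms -/

/-- a system of forms whose values under `rho β` coincide rarely -/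
structure GoodSys (β : Fin r → ℤ) {I Y : Type} [AddCommGroup Y]
    (f : I → (Y →+ (Fin r → ZMod N))) : Prop where
  sep : ∀ i j, i ≠ j → ∃ (τ : ZMod N →+ Y) (p q : Fin r → ℤ), Mv (f i) τ p ∧ Mv (f j) τ q ∧
    ∑ l, β l * (p l - q l) ≠ 0
  sep0 : ∀ i, ∃ (τ : ZMod N →+ Y) (p : Fin r → ℤ), Mv (f i) τ p ∧ ∑ l, β l * p l ≠ 0

theorem card_badx [NeZero N] {I Y : Type} [Fintype I] [AddCommGroup Y] [Fintype Y]
    (β : Fin r → ℤ) (f : I → (Y →+ (Fin r → ZMod N)))
    (hf : ∀ i j, i ≠ j → ∃ (τ : ZMod N →+ Y) (p q : Fin r → ℤ), Mv (f i) τ p ∧ Mv (f j) τ q ∧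
      ∑ l, β l * (p l - q l) ≠ 0) :
    ((univ.filter (fun y : Y => ¬ Function.Injective (fun i => rho β (f i y)))).card : ℝ) * N ≤
      (Fintype.card I : ℝ) ^ 2 * 9 ^ r * Fintype.card Y := by
  classical
  have h1 : univ.filter (fun y : Y => ¬ Function.Injective (fun i => rho β (f i y))) ⊆
      (univ : Finset I).offDiag.biUnion (fun e => univ.filter (fun y : Y =>
        rho β (f e.1 y) = rho β (f e.2 y))) := by
    intro y hy
    rw [mem_filter] at hy
    have h2 := hy.2
    unfold Function.Injective at h2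
    push Not at h2
    obtain ⟨i, j, hij, hne⟩ := h2
    rw [mem_biUnion]
    refine ⟨(i, j), ?_, ?_⟩
    · rw [mem_offDiag]
      exact ⟨mem_univ _, mem_univ _, hne⟩
    · rw [mem_filter]
      exact ⟨mem_univ _, hij⟩
  have h3 : (univ.filter (fun y : Y => ¬ Function.Injective (fun i => rho β (f i y)))).card * N ≤
      (Fintype.card I) ^ 2 * (9 ^ r * Fintype.card Y) := by
    calc (univ.filter (fun y : Y => ¬ Function.Injective (fun i => rho β (f i y)))).card * N
        ≤ (∑ e ∈ (univ : Finset I).offDiag, (univ.filter (fun y : Y =>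
          rho β (f e.1 y) = rho β (f e.2 y))).card) * N :=
          Nat.mul_le_mul_right _ ((card_le_card h1).trans card_biUnion_le)
      _ = ∑ e ∈ (univ : Finset I).offDiag, (univ.filter (fun y : Y =>
          rho β (f e.1 y) = rho β (f e.2 y))).card * N := sum_mul _ _ _
      _ ≤ ∑ e ∈ (univ : Finset I).offDiag, 9 ^ r * Fintype.card Y := by
          refine sum_le_sum fun e he => ?_
          rw [mem_offDiag] at he
          obtain ⟨τ, p, q, hp, hq, hne⟩ := hf e.1 e.2 he.2.2
          exact pair_bad β _ _ τ p q hp hq hne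
      _ = (univ : Finset I).offDiag.card * (9 ^ r * Fintype.card Y) := by
          rw [sum_const, smul_eq_mul]
      _ ≤ _ := by
          refine Nat.mul_le_mul_right _ ?_
          rw [offDiag_card, card_univ, pow_two]
          exact Nat.sub_le _ _
  calc ((univ.filter (fun y : Y => ¬ Function.Injective (fun i => rho β (f i y)))).card : ℝ) * N
      = (((univ.filter (fun y : Y => ¬ Function.Injective (fun i => rho β (f i y)))).card * N : ℕ) :
        ℝ) := by push_cast; ring
    _ ≤ (((Fintype.card I) ^ 2 * (9 ^ r * Fintype.card Y) : ℕ) : ℝ) := by exact_mod_cast h3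
    _ = _ := by push_cast; ring

variable {Ω : Type} {S : Finset Ω} {M : ℕ} {F : Ω → (Fin r → ZMod N) → ℝ} {η L : ℝ}
  {β : Fin r → ℤ}

theorem lemBx [NeZero N] (h : MajB β S F M η L) (hL : 1 ≤ L) (hη : 0 ≤ η) (hX : S.Nonempty)
    {I Y : Type} [Fintype I] [AddCommGroup Y] [Fintype Y] (hI : Fintype.card I ≤ M)
    (f : I → (Y →+ (Fin r → ZMod N)))
    (hf : ∀ i j, i ≠ j → ∃ (τ : ZMod N →+ Y) (p q : Fin r → ℤ), Mv (f i) τ p ∧ Mv (f j) τ q ∧
      ∑ l, β l * (p l - q l) ≠ 0) :
    |(∑ K ∈ S, av (fun y : Y => ∏ i, F K (f i y))) / S.card - 1| ≤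
      η + (Fintype.card I : ℝ) ^ 2 * 9 ^ r * L / N := by
  classical
  have hX' : (0 : ℝ) < S.card := by exact_mod_cast hX.card_pos
  have hN : (0 : ℝ) < N := by exact_mod_cast Nat.pos_of_ne_zero (NeZero.ne N)
  have hY : (0 : ℝ) < Fintype.card Y := by exact_mod_cast Fintype.card_pos
  set P : Y → ℝ := fun y => (∑ K ∈ S, ∏ i, F K (f i y)) / S.card - 1 with hP
  have h1 : (∑ K ∈ S, av (fun y : Y => ∏ i, F K (f i y))) / S.card - 1 = av P := by
    rw [hP, av_sub, av_const, ← av_sum]
    congr 1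
    simp_rw [div_eq_inv_mul]
    rw [av_mul]
  have hgood : ∀ y, Function.Injective (fun i => rho β (f i y)) → |P y| ≤ η := by
    intro y hy
    exact h.maj I hI (fun i => f i y) hy
  have hbad : ∀ y, |P y| ≤ L := by
    intro y
    have h2 : 0 ≤ (∑ K ∈ S, ∏ i, F K (f i y)) / S.card :=
      div_nonneg (sum_nonneg fun K _ => prod_nonneg fun i _ => h.nonneg _ _) hX'.le
    have h3 : (∑ K ∈ S, ∏ i, F K (f i y)) / S.card ≤ L := by
      rw [div_le_iff₀ hX']
      calc ∑ K ∈ S, ∏ i, F K (f i y)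
          ≤ ∑ K ∈ S, L :=
            sum_le_sum fun K hK => h.bound I hI (fun i => f i y) K hK
        _ = L * S.card := by rw [sum_const, nsmul_eq_mul, mul_comm]
    rw [abs_le]
    constructor <;> simp only [hP] <;> linarith
  rw [h1]
  refine (abs_av_le (f := P) (g := fun y => |P y|) fun _ => le_rfl).trans ?_
  have h4 : av (fun y => |P y|) ≤ av (fun y => η +
      if ¬ Function.Injective (fun i => rho β (f i y)) then L else 0) := by
    apply av_mono
    intro y
    by_cases hy : Function.Injective (fun i => rho β (f i y))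
    · rw [if_neg (not_not_intro hy)]
      have := hgood y hy
      linarith
    · rw [if_pos hy]
      have := hbad y
      linarith
  refine h4.trans ?_
  rw [av_add, av_const]
  have h5 : av (fun y : Y => if ¬ Function.Injective (fun i => rho β (f i y)) then L else 0) =
      ((univ.filter (fun y => ¬ Function.Injective (fun i => rho β (f i y)))).card : ℝ) * L /
        Fintype.card Y := by
    unfold av
    rw [← sum_filter, sum_const, nsmul_eq_mul]
  rw [h5]
  have h6 := card_badx β f hf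
  have h7 : ((univ.filter (fun y => ¬ Function.Injective (fun i => rho β (f i y)))).card : ℝ) * L /
        Fintype.card Y ≤ (Fintype.card I : ℝ) ^ 2 * 9 ^ r * L / N := by
    rw [div_le_div_iff₀ hY hN]
    nlinarith
  linarith

theorem lemCx [NeZero N] (h : MajB β S F M η L) (hL : 1 ≤ L) (hη : 0 ≤ η) (hX : S.Nonempty)
    {I Y : Type} [Fintype I] [AddCommGroup Y] [Fintype Y] (hI : 2 * Fintype.card I ≤ M)
    (f : I → (Y →+ (Fin r → ZMod N))) (hf : GoodSys β f) :
    ∑ K ∈ S, (av (fun y : Y => ∏ i, F K (f i y)) - 1) ^ 2 ≤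
      (3 * η + 2 * (M : ℝ) ^ 2 * 9 ^ r * L / N) * S.card := by
  classical
  have hX' : (0 : ℝ) < S.card := by exact_mod_cast hX.card_pos
  have hN : (0 : ℝ) < N := by exact_mod_cast Nat.pos_of_ne_zero (NeZero.ne N)
  have h1 := lemBx h hL hη hX (by omega) f hf.sep
  -- the family on `Y × Y`
  let g : I ⊕ I → Y × Y →+ (Fin r → ZMod N) :=
    Sum.elim (fun i => (f i).comp (AddMonoidHom.fst Y Y))
    (fun i => (f i).comp (AddMonoidHom.snd Y Y))
  have hl : ∀ i τ p, Mv (f i) τ p → Mv (g (Sum.inl i)) ((AddMonoidHom.inl Y Y).comp τ) p :=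
    fun i τ p hh => ⟨hh.small, fun h l => by
      show f i (τ h) l = _
      exact hh.eq h l⟩
  have hr : ∀ i τ p, Mv (f i) τ p → Mv (g (Sum.inr i)) ((AddMonoidHom.inr Y Y).comp τ) p :=
    fun i τ p hh => ⟨hh.small, fun h l => by
      show f i (τ h) l = _
      exact hh.eq h l⟩
  have hl0 : ∀ i (τ : ZMod N →+ Y), Mv (g (Sum.inr i)) ((AddMonoidHom.inl Y Y).comp τ) 0 :=
    fun i τ => ⟨fun l => by simp, fun h l => by
      show f i 0 l = _
      simp⟩
  have hr0 : ∀ i (τ : ZMod N →+ Y), Mv (g (Sum.inl i)) ((AddMonoidHom.inr Y Y).comp τ) 0 :=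
    fun i τ => ⟨fun l => by simp, fun h l => by
      show f i 0 l = _
      simp⟩
  have hg : ∀ i j, i ≠ j → ∃ (τ : ZMod N →+ Y × Y) (p q : Fin r → ℤ), Mv (g i) τ p ∧
      Mv (g j) τ q ∧ ∑ l, β l * (p l - q l) ≠ 0 := by
    rintro (i | i) (j | j) hij
    · obtain ⟨τ, p, q, h1, h2, h3⟩ := hf.sep i j (fun h => hij (by rw [h]))
      exact ⟨_, p, q, hl _ _ _ h1, hl _ _ _ h2, h3⟩
    · obtain ⟨τ, p, h1, h3⟩ := hf.sep0 i
      exact ⟨_, p, 0, hl _ _ _ h1, hl0 _ _, by simpa using h3⟩
    · obtain ⟨τ, p, h1, h3⟩ := hf.sep0 i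
      exact ⟨_, p, 0, hr _ _ _ h1, hr0 _ _, by simpa using h3⟩
    · obtain ⟨τ, p, q, h1, h2, h3⟩ := hf.sep i j (fun h => hij (by rw [h]))
      exact ⟨_, p, q, hr _ _ _ h1, hr _ _ _ h2, h3⟩
  have h2 := lemBx h hL hη hX (by rw [Fintype.card_sum]; omega) g hg
  have h3 : ∀ K, av (fun y : Y × Y => ∏ i, F K (g i y)) =
      (av (fun y : Y => ∏ i, F K (f i y))) ^ 2 := by
    intro K
    rw [av_prod]
    have h4 : ∀ x y : Y, ∏ i, F K (g i (x, y)) =
        (∏ i, F K (f i x)) * ∏ i, F K (f i y) := by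
      intro x y
      rw [Fintype.prod_sum_type]
      rfl
    simp_rw [h4]
    simp_rw [av_mul]
    have h5 : av (fun x : Y => (∏ i, F K (f i x)) *
        av (fun y : Y => ∏ i, F K (f i y))) =
        av (fun x : Y => av (fun y : Y => ∏ i, F K (f i y)) *
          ∏ i, F K (f i x)) := by
      congr 1
      funext x
      rw [mul_comm]
    rw [h5, av_mul, pow_two]
  simp_rw [h3] at h2
  rw [Fintype.card_sum] at h2
  set G : Ω → ℝ := fun K => av (fun y : Y => ∏ i, F K (f i y)) with hG
  change |(∑ K ∈ S, G K) / S.card - 1| ≤ _ at h1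
  change |(∑ K ∈ S, G K ^ 2) / S.card - 1| ≤ _ at h2
  change ∑ K ∈ S, (G K - 1) ^ 2 ≤ _
  have h6 : ∑ K ∈ S, (G K - 1) ^ 2 =
      (((∑ K ∈ S, G K ^ 2) / S.card - 1) - 2 * ((∑ K ∈ S, G K) / S.card - 1)) * S.card := by
    have h7 : ∑ K ∈ S, (G K - 1) ^ 2 =
        ∑ K ∈ S, G K ^ 2 - 2 * ∑ K ∈ S, G K + S.card := by
      simp_rw [sub_sq]
      rw [sum_add_distrib, sum_sub_distrib, mul_sum]
      simp only [mul_one, one_pow, sum_const, nsmul_eq_mul]
    rw [h7]
    field_simp
    ring
  rw [h6]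
  apply mul_le_mul_of_nonneg_right _ hX'.le
  have h8 := (abs_le.1 h1).1
  have h9 := (abs_le.1 h2).2
  have hm : (Fintype.card I : ℝ) * 2 ≤ M := by
    have : Fintype.card I * 2 ≤ M := by omega
    exact_mod_cast this
  have hm0 : (0 : ℝ) ≤ Fintype.card I := by positivity
  obtain ⟨W, hW⟩ : ∃ W : ℝ, W = 9 ^ r * L / N := ⟨_, rfl⟩
  have hLN : 0 ≤ W := by rw [hW]; positivity
  have h10 : (Fintype.card I : ℝ) ^ 2 * 9 ^ r * L / N ≤ (M : ℝ) ^ 2 / 4 * W := by
    have : (Fintype.card I : ℝ) ^ 2 * 9 ^ r * L / N = (Fintype.card I : ℝ) ^ 2 * W := by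
      rw [hW]; ring
    rw [this]
    apply mul_le_mul_of_nonneg_right _ hLN
    nlinarith
  have h11 : ((Fintype.card I + Fintype.card I : ℕ) : ℝ) ^ 2 * 9 ^ r * L / N ≤ (M : ℝ) ^ 2 * W := by
    have : ((Fintype.card I + Fintype.card I : ℕ) : ℝ) ^ 2 * 9 ^ r * L / N =
      ((Fintype.card I + Fintype.card I : ℕ) : ℝ) ^ 2 * W := by
      rw [hW]; ring
    rw [this]
    apply mul_le_mul_of_nonneg_right _ hLN
    push_cast
    nlinarith
  have h12 : 2 * (M : ℝ) ^ 2 * 9 ^ r * L / N = 2 * ((M : ℝ) ^ 2 * W) := by rw [hW]; ring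
  rw [h12]
  have h13 : 0 ≤ (M : ℝ) ^ 2 * W := by positivity
  linarith

end Pool.Agent.Helper51.UD
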